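import Mathlib
import Pool.Graph.R_seed8.H931R3.Bal14
import Pool.Graph.R_seed8.R636.BGap7

/-!
# Disjoint sums with a chain: probabilities of the crossing pairs
-/

set_option autoImplicit false

open Finset

namespace Pool.Agent.H175.IE

open Pool.Agent.H13R3.WB Pool.Agent.H931R3.Bal Pool.Agent.R636.BG

lemma FF_one {m i : ℕ} (hi : i < m) : FF m 1 i 0 = ((m : ℝ) - i) / (m + 1) := by
  rw [FF_eq hi (by norm_num)]
  simp only [zero_add, Finset.sum_range_one, Nat.choose_zero_right, one_mul, Nat.sub_zero,
    Nat.choose_one_right, add_zero]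
  rw [show m + 1 - (i + 1) = m - i by omega, Nat.cast_sub hi.le]
  push_cast
  rfl

lemma avg_rank {Q : Type} [Fintype Q] [PartialOrder Q] {m : ℕ} (hm : Fintype.card Q = m) (v : Q) :
    avg Q m v (fun i => (i : ℝ)) = ∑ u : Q, pr Q m u v := by
  classical
  unfold avg pr
  rw [← Finset.sum_div, Finset.sum_comm]
  congr 1
  apply Finset.sum_congr rfl
  intro f _
  rw [← rank_card f v, Finset.sum_boole]

lemma avg_lin {Q : Type} [Fintype Q] [PartialOrder Q] {m : ℕ} (hm : Fintype.card Q = m) (v : Q)
    (a b : ℝ) : avg Q m v (fun i => a - b * (i : ℝ)) = a - b * avg Q m v (fun i => (i : ℝ)) := by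
  unfold avg
  have h := card_ne hm
  rw [Finset.sum_sub_distrib, Finset.sum_const, Finset.card_univ, nsmul_eq_mul,
    ← Finset.mul_sum]
  field_simp

lemma avg_const' {Q : Type} [Fintype Q] [PartialOrder Q] {m : ℕ} (hm : Fintype.card Q = m) (v : Q)
    (a : ℝ) : avg Q m v (fun _ => a) = a := by
  unfold avg
  have h := card_ne hm
  rw [Finset.sum_const, Finset.card_univ, nsmul_eq_mul]
  field_simp

/-- an isolated element comes before `v` with probability `(1 + ∑ P(u < v)) / (m + 1)` -/
lemma prob_iso_pt {Q : Type} [Fintype Q] [PartialOrder Q] {m : ℕ} (hm : Fintype.card Q = m)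
    (v : Q) : prob (Q ⊕ Fin 1) (Sum.inr 0) (Sum.inl v) =
      (1 + ∑ u : Q, prob Q u v) / (m + 1) := by
  have hc : Fintype.card (Q ⊕ Fin 1) = m + 1 := by rw [Fintype.card_sum, hm]; simp
  have h1 : prob (Q ⊕ Fin 1) (Sum.inl v) (Sum.inr 0) =
      (m - ∑ u : Q, prob Q u v) / (m + 1) := by
    rw [prob_eq hc, pr_disj_cross hm (by simp)]
    have h2 : ∀ i < m, avg (Fin 1) 1 (0 : Fin 1) (fun j => FF m 1 i j) =
        (m : ℝ) / (m + 1) - 1 / (m + 1) * (i : ℝ) := by
      intro i hi
      have h3 : ∀ j < 1, (fun j => FF m 1 i j) j = (fun _ => ((m : ℝ) - i) / (m + 1)) j := by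
        intro j hj
        have : j = 0 := by omega
        subst this
        exact FF_one hi
      rw [avg_congr h3, avg_const' (by simp)]
      ring
    rw [avg_congr h2, avg_lin hm, avg_rank hm]
    simp_rw [prob_eq hm]
    ring
  have h2 := prob_add (P := Q ⊕ Fin 1) (x := Sum.inr 0) (y := Sum.inl v) (by simp)
  rw [h1] at h2
  have h3 : (m : ℝ) + 1 ≠ 0 := by positivity
  have h4 : prob (Q ⊕ Fin 1) (Sum.inr 0) (Sum.inl v) = 1 -
      (m - ∑ u : Q, prob Q u v) / (m + 1) := by linarith
  rw [h4]
  field_simp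
  ring

lemma prob_inl {Q : Type} [Fintype Q] [PartialOrder Q] {R : Type} [Fintype R] [PartialOrder R]
    (u v : Q) : prob (Q ⊕ R) (Sum.inl u) (Sum.inl v) = prob Q u v := by
  rw [prob_eq (n := Fintype.card Q + Fintype.card R) Fintype.card_sum,
    prob_eq (n := Fintype.card Q) rfl, pr_disj_inl rfl rfl]

/-- a comparison that is not forced by the order has positive probability -/
lemma prob_pos_of_not_le {P : Type} [Fintype P] [PartialOrder P] {x y : P} (h : ¬ y ≤ x) :
    0 < prob P x y := by
  have h1 := pb_low (P := P) (n := Fintype.card P) rfl (K := Fintype.card P)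
    (fun p => Finset.card_le_univ _) h
  rw [← prob_pb rfl] at h1
  by_contra h2
  push Not at h2
  have h3 : (0 : ℝ) ≤ (CK (Fintype.card P) : ℝ) + 1 := by positivity
  nlinarith

lemma prob_nonneg {P : Type} [Fintype P] [PartialOrder P] (x y : P) : 0 ≤ prob P x y := by
  unfold prob
  positivity

lemma prob_le_one {P : Type} [Fintype P] [PartialOrder P] (x y : P) : prob P x y ≤ 1 := by
  rcases eq_or_ne x y with rfl | h
  · rw [prob_self]; norm_num
  · have := prob_add h
    have := prob_nonneg y x
    linarith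

/-- in a strict total order there are elements with any number of predecessors -/
lemma exists_rank_sto {α : Type} [Fintype α] (r : α → α → Prop) [IsStrictTotalOrder α r] (b : ℕ)
    (hb : b < Fintype.card α) : ∃ v, ∀ [DecidablePred fun u => r u v],
      (Finset.univ.filter (fun u => r u v)).card = b := by
  classical
  letI : LinearOrder α := linearOrderOfSTO r
  let e : Fin (Fintype.card α) ≃o α := Fintype.orderIsoFinOfCardEq α rfl
  refine ⟨e ⟨b, hb⟩, ?_⟩
  intro _
  have h : (Finset.univ.filter (fun u => r u (e ⟨b, hb⟩))).card =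
      (Finset.Iio (⟨b, hb⟩ : Fin (Fintype.card α))).card := by
    apply Finset.card_nbij' (fun u => e.symm u) (fun i => e i)
    · intro u hu
      simp only [coe_filter, mem_univ, true_and, Set.mem_setOf_eq] at hu
      simp only [coe_Iio, Set.mem_Iio]
      rw [OrderIso.symm_apply_lt]
      exact hu
    · intro i hi
      simp only [coe_Iio, Set.mem_Iio] at hi
      simp only [coe_filter, mem_univ, true_and, Set.mem_setOf_eq]
      have : e i < e ⟨b, hb⟩ := e.lt_iff_lt.2 hi
      exact this
    · intro u _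
      simp
    · intro i _
      simp
  rw [h, Fin.card_Iio]

end Pool.Agent.H175.IE
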