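import Pool.Agent.H175.IE.Base

/-!
# The disjoint sum of an arbitrary poset and a long chain
-/

set_option autoImplicit false

open Finset

namespace Pool.Agent.H175.IE

open Pool.Agent.H13R3.WB (prob balance InD)
open Pool.Agent.H931R3.Bal Pool.Agent.R636.BG

lemma avg_chain {k : ℕ} (i : Fin k) (φ : ℕ → ℝ) : avg (Fin k) k i φ = φ i := by
  classical
  unfold avg
  have h := card_ne (P := Fin k) (n := k) (by simp)
  have h1 : ∀ f : LEn (Fin k) k, φ (f.1 i) = φ i := by
    intro f
    congr 1
    rw [← rank_card f i]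
    have h2 : univ.filter (fun q : Fin k => f.1 q < f.1 i) = Finset.Iio i := by
      ext q
      simp only [mem_filter, mem_univ, true_and, mem_Iio]
      constructor
      · intro hq
        by_contra hcon
        exact absurd (f.2 (not_lt.1 hcon)) (not_le_of_gt hq)
      · intro hq
        exact lt_of_mono f.2 hq
    rw [h2, Fin.card_Iio]
  rw [Finset.sum_congr rfl (fun f _ => h1 f), Finset.sum_const, Finset.card_univ, nsmul_eq_mul]
  field_simp

lemma D_lt {k m j i : ℕ} (hi : i ≤ k) (hj : j < m) (hm : 2 ≤ m) :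
    D k m j i < (k + m).choose (k + 1) := by
  obtain ⟨b, rfl⟩ : ∃ b, k = i + b := ⟨k - i, by omega⟩
  obtain ⟨l, rfl⟩ : ∃ l, m = j + 1 + l := ⟨m - (j + 1), by omega⟩
  unfold D
  rw [show i + b - i + (j + 1 + l - 1 - j) = b + l by omega, show j + 1 + l - 1 - j = l by omega]
  rcases Nat.eq_zero_or_pos j with hj0 | hj0
  · subst hj0
    have hl : 1 ≤ l := by omega
    obtain ⟨l', rfl⟩ : ∃ l', l = l' + 1 := ⟨l - 1, by omega⟩
    rw [add_zero, Nat.choose_zero_right, one_mul]
    have h1 : (b + (l' + 1)).choose (l' + 1) ≤ (i + b + (l' + 1)).choose (l' + 1) :=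
      Nat.choose_le_choose _ (by omega)
    have h2 : (i + b + (0 + 1 + (l' + 1))).choose (i + b + 1) =
        (i + b + (l' + 1)).choose l' + (i + b + (l' + 1)).choose (l' + 1) := by
      rw [← Nat.choose_succ_succ]
      rw [show i + b + (0 + 1 + (l' + 1)) = (i + b + 1) + (l' + 1) by omega,
        show (i + b + (l' + 1)).succ = (i + b + 1) + (l' + 1) by omega, Nat.choose_symm_add]
    have h3 : 0 < (i + b + (l' + 1)).choose l' := Nat.choose_pos (by omega)
    rw [h2]
    omega
  · have h1 : (i + j + 1).choose (i + 1) * (b + l).choose b ≤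
        (i + b + (j + 1 + l)).choose (i + b + 1) := by
      rw [show i + b + (j + 1 + l) = (i + j + 1) + (b + l) by omega,
        Nat.add_choose_eq (i + j + 1) (b + l) (i + b + 1)]
      have hmem : ((i + 1, b) : ℕ × ℕ) ∈ antidiagonal (i + b + 1) := by
        rw [HasAntidiagonal.mem_antidiagonal]
        omega
      exact Finset.single_le_sum
        (f := fun ij : ℕ × ℕ => (i + j + 1).choose ij.1 * (b + l).choose ij.2)
        (fun _ _ => Nat.zero_le _) hmem
    have h2 : (i + j).choose j < (i + j + 1).choose (i + 1) := by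
      have h3 : (i + j).choose j = (i + j).choose i := by
        rw [Nat.choose_symm_add]
      have h4 : 0 < (i + j).choose (i + 1) := Nat.choose_pos (by omega)
      have h7 : (i + j + 1).choose (i + 1) = (i + j).choose i + (i + j).choose (i + 1) :=
        Nat.choose_succ_succ _ _
      rw [h7, h3]
      exact Nat.lt_add_of_pos_right h4
    have h5 : (b + l).choose l = (b + l).choose b := by rw [Nat.choose_symm_add]
    have h6 : 0 < (b + l).choose b := Nat.choose_pos (by omega)
    calc (i + j).choose j * (b + l).choose l < (i + j + 1).choose (i + 1) * (b + l).choose b := by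
          rw [h5]
          exact Nat.mul_lt_mul_of_pos_right h2 h6
      _ ≤ _ := h1

lemma three_D_lt {k m j i : ℕ} (hi : i ≤ k) (hj : j < m) (hk : 3 * m ≤ k + 1)
    (hE : ¬ (m = 1 ∧ k = 2)) : 3 * D k m j i < (k + m).choose m := by
  rcases Nat.lt_or_ge m 2 with h | h
  · have hm1 : m = 1 := by omega
    subst hm1
    have hj0 : j = 0 := by omega
    subst hj0
    unfold D
    simp
    omega
  · have h1 := D_lt hi hj h
    have h2 : (k + m).choose (k + 1) * (k + 1) = (k + m).choose k * (k + m - k) :=
      Nat.choose_succ_right_eq (k + m) k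
    rw [Nat.choose_symm_add, show k + m - k = m by omega] at h2
    have h3 : D k m j i * (k + 1) < (k + m).choose m * m := by
      rw [← h2]
      exact Nat.mul_lt_mul_of_pos_right h1 (by omega)
    have h4 : (k + m).choose m * (3 * m) ≤ (k + m).choose m * (k + 1) := Nat.mul_le_mul_left _ hk
    by_contra hcon
    push Not at hcon
    have h5 : (k + m).choose m * (k + 1) ≤ 3 * D k m j i * (k + 1) := Nat.mul_le_mul_right _ hcon
    nlinarith

/-- the disjoint sum of an arbitrary nonempty poset with `m` elements and a chain with at least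
`3 m - 1` elements -/
theorem long_chain {Q : Type} [Fintype Q] [PartialOrder Q] {m k : ℕ} (hm : Fintype.card Q = m)
    (hm1 : 1 ≤ m) (hk : 3 * m ≤ k + 1) (hE : ¬ (m = 1 ∧ k = 2)) :
    1 / 3 < balance (Fin k ⊕ Q) := by
  classical
  have : Nonempty Q := Fintype.card_pos_iff.1 (by omega)
  obtain ⟨y⟩ := this
  have hc : Fintype.card (Fin k ⊕ Q) = k + m := by rw [Fintype.card_sum, hm]; simp
  have hC : (0 : ℝ) < ((k + m).choose m : ℝ) := by exact_mod_cast Nat.choose_pos (by omega)
  let F : ℕ → ℝ := fun i => avg Q m y (fun j => (Kf k m j i : ℝ) / (k + m).choose m)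
  have hF0 : F 0 = 1 := by
    have h1 : ∀ j < m, (fun j => (Kf k m j 0 : ℝ) / (k + m).choose m) j = (fun _ => (1 : ℝ)) j := by
      intro j hj
      simp only
      rw [Kf_zero hj, div_self hC.ne']
    show avg Q m y _ = 1
    rw [avg_congr h1, avg_const' hm]
  have hFk : F (k + 1) = 0 := by
    have h1 : ∀ j < m, (fun j => (Kf k m j (k + 1) : ℝ) / (k + m).choose m) j =
        (fun _ => (0 : ℝ)) j := by
      intro j hj
      simp only
      rw [Kf_end hj]
      simp
    show avg Q m y _ = 0
    rw [avg_congr h1, avg_const' hm]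
  have hstep : ∀ i ≤ k, F i < F (i + 1) + 1 / 3 := by
    intro i hi
    have hne := card_ne hm
    have hpos : (0 : ℝ) < Fintype.card (LEn Q m) := by
      have : (0 : ℝ) ≤ Fintype.card (LEn Q m) := by positivity
      exact lt_of_le_of_ne this (Ne.symm hne)
    have hpt : ∀ f : LEn Q m, (Kf k m (f.1 y) i : ℝ) / (k + m).choose m <
        (Kf k m (f.1 y) (i + 1) : ℝ) / (k + m).choose m + 1 / 3 := by
      intro f
      have h1 := Kf_step (f.1 y).2 hi
      have h2 := three_D_lt hi (f.1 y).2 hk hE
      rw [h1, div_add' _ _ _ hC.ne', div_lt_div_iff_of_pos_right hC]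
      have h3 : (3 : ℝ) * (D k m (f.1 y) i : ℝ) < ((k + m).choose m : ℝ) := by exact_mod_cast h2
      push_cast
      linarith
    show avg Q m y _ < avg Q m y _ + 1 / 3
    unfold avg
    rw [div_add' _ _ _ hne, div_lt_div_iff_of_pos_right hpos]
    have h4 : (1 : ℝ) / 3 * Fintype.card (LEn Q m) = ∑ _f : LEn Q m, (1 : ℝ) / 3 := by
      rw [Finset.sum_const, Finset.card_univ, nsmul_eq_mul]
      ring
    rw [h4, ← Finset.sum_add_distrib]
    have hneL : (univ : Finset (LEn Q m)).Nonempty := by
      rw [← Finset.card_pos, Finset.card_univ]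
      exact_mod_cast hpos
    exact Finset.sum_lt_sum_of_nonempty hneL fun f _ => hpt f
  -- the first index where `F` is below `2/3`
  have hex : ∃ i, F i < 2 / 3 := ⟨k + 1, by rw [hFk]; norm_num⟩
  have hi0 := Nat.find_spec hex
  have hmin : ∀ j, j < Nat.find hex → ¬ F j < 2 / 3 := fun j hj => Nat.find_min hex hj
  have hle : Nat.find hex ≤ k + 1 := Nat.find_min' hex (by rw [hFk]; norm_num)
  set i₀ := Nat.find hex with hi₀
  have hpos : 0 < i₀ := by
    rcases Nat.eq_zero_or_pos i₀ with h | h
    · rw [h, hF0] at hi0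
      norm_num at hi0
    · exact h
  have h1 := hmin (i₀ - 1) (by omega)
  push Not at h1
  have h2 := hstep (i₀ - 1) (by omega)
  rw [show i₀ - 1 + 1 = i₀ by omega] at h2
  have hlow : 1 / 3 < F i₀ := by linarith
  have hik : i₀ ≤ k := by
    by_contra hcon
    have : i₀ = k + 1 := by omega
    rw [this, hFk] at hlow
    norm_num at hlow
  -- the pair
  have hprob : prob (Fin k ⊕ Q) (Sum.inl ⟨i₀ - 1, by omega⟩) (Sum.inr y) = F i₀ := by
    rw [prob_eq hc, pr_disj_cross (by simp) hm, avg_chain]
    show avg Q m y _ = avg Q m y _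
    apply avg_congr
    intro j hj
    simp only
    rw [FF_eq_Kf (by omega) hj, show i₀ - 1 + 1 = i₀ by omega]
  have h5 := prob_add (P := Fin k ⊕ Q) (x := Sum.inl ⟨i₀ - 1, by omega⟩) (y := Sum.inr y)
    (by simp)
  rw [hprob] at h5
  refine lt_of_lt_of_le ?_ (le_balance (P := Fin k ⊕ Q) (Sum.inl ⟨i₀ - 1, by omega⟩) (Sum.inr y))
  rw [hprob]
  apply lt_min hlow
  linarith

end Pool.Agent.H175.IE
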