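import Pool.Agent.H175.IE.Poly
import Pool.Agent.H175.IE.Base

/-!
# The position of an element in a long chain: no probability above `1/3` except near the ends
-/

set_option autoImplicit false

open Finset

namespace Pool.Agent.H175.IE

open Pool.Agent.H931R3.Bal

lemma sum_D {k m j : ℕ} (hj : j < m) :
    ∑ n ∈ range (k + 1), D k m j n = (k + m).choose m := by
  rw [← Kf_zero hj, Kf_eq_sum hj (k + 1) 0 (by omega), Nat.Ico_zero_eq_range]

lemma fact_up (a t : ℕ) : a.factorial * (a + 1) ^ t ≤ (a + t).factorial :=
  Nat.factorial_mul_pow_le_factorial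

lemma fact_down {a t : ℕ} (h : t ≤ a) : a.factorial ≤ (a - t).factorial * a ^ t := by
  rw [← Nat.factorial_mul_descFactorial h]
  exact Nat.mul_le_mul_left _ (Nat.descFactorial_le_pow _ _)

lemma D_fact {k p q n : ℕ} (hn : n ≤ k) :
    ((n + p).choose p * (k - n + q).choose q) * (p.factorial * q.factorial * k.factorial) =
      (n + p).factorial * (k - n + q).factorial * k.choose n := by
  have h1 : (n + p).choose p * n.factorial * p.factorial = (n + p).factorial :=
    Nat.add_choose_mul_factorial_mul_factorial n p
  have h2 : (k - n + q).choose q * (k - n).factorial * q.factorial = (k - n + q).factorial :=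
    Nat.add_choose_mul_factorial_mul_factorial (k - n) q
  have h3 : k.choose n * n.factorial * (k - n).factorial = k.factorial :=
    Nat.choose_mul_factorial_mul_factorial hn
  rw [← h1, ← h2, ← h3]
  ring

lemma key_fact {k p q i n : ℕ} (hi : i ≤ k) (hn : n ≤ k) :
    (i + p).factorial * (k - i + q).factorial * ((i + 1 + p) ^ n * (k - i + q) ^ (k - n)) ≤
      (n + p).factorial * (k - n + q).factorial * ((i + 1 + p) ^ i * (k - i + q) ^ (k - i)) := by
  rcases le_total i n with h | h
  · obtain ⟨t, rfl⟩ : ∃ t, n = i + t := ⟨n - i, by omega⟩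
    obtain ⟨l, rfl⟩ : ∃ l, k = i + t + l := ⟨k - (i + t), by omega⟩
    rw [show i + t + l - i = t + l by omega, show i + t + l - (i + t) = l by omega]
    have h1 := fact_up (i + p) t
    have h2 := fact_down (a := t + l + q) (t := t) (by omega)
    rw [show t + l + q - t = l + q by omega] at h2
    rw [show i + p + t = i + t + p by ring, show i + p + 1 = i + 1 + p by ring] at h1
    calc (i + p).factorial * (t + l + q).factorial *
          ((i + 1 + p) ^ (i + t) * (t + l + q) ^ l)
        = ((i + p).factorial * (i + 1 + p) ^ t) * (t + l + q).factorial *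
          ((i + 1 + p) ^ i * (t + l + q) ^ l) := by rw [pow_add]; ring
      _ ≤ (i + t + p).factorial * ((l + q).factorial * (t + l + q) ^ t) *
          ((i + 1 + p) ^ i * (t + l + q) ^ l) := by gcongr
      _ = (i + t + p).factorial * (l + q).factorial *
          ((i + 1 + p) ^ i * (t + l + q) ^ (t + l)) := by rw [pow_add _ t l]; ring
  · obtain ⟨t, rfl⟩ : ∃ t, i = n + t := ⟨i - n, by omega⟩
    obtain ⟨l, rfl⟩ : ∃ l, k = n + t + l := ⟨k - (n + t), by omega⟩
    rw [show n + t + l - (n + t) = l by omega, show n + t + l - n = t + l by omega]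
    have h1 := fact_down (a := n + t + p) (t := t) (by omega)
    rw [show n + t + p - t = n + p by omega] at h1
    have h2 := fact_up (l + q) t
    rw [show l + q + t = t + l + q by ring] at h2
    have h3 : (n + t + p) ^ t ≤ (n + t + 1 + p) ^ t := Nat.pow_le_pow_left (by omega) _
    have h4 : (l + q) ^ t ≤ (l + q + 1) ^ t := Nat.pow_le_pow_left (by omega) _
    calc (n + t + p).factorial * (l + q).factorial *
          ((n + t + 1 + p) ^ n * (l + q) ^ (t + l))
        = (n + t + p).factorial * ((l + q).factorial * (l + q) ^ t) *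
          ((n + t + 1 + p) ^ n * (l + q) ^ l) := by rw [pow_add _ t l]; ring
      _ ≤ ((n + p).factorial * (n + t + 1 + p) ^ t) * (t + l + q).factorial *
          ((n + t + 1 + p) ^ n * (l + q) ^ l) := by
          apply Nat.mul_le_mul_right
          apply Nat.mul_le_mul
          · exact h1.trans (Nat.mul_le_mul_left _ h3)
          · exact (Nat.mul_le_mul_left _ h4).trans h2
      _ = (n + p).factorial * (t + l + q).factorial *
          ((n + t + 1 + p) ^ (n + t) * (l + q) ^ l) := by rw [pow_add _ n t]; ring

lemma D_compare {k m j i n : ℕ} (hi : i ≤ k) (hn : n ≤ k) :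
    D k m j i * (k.choose n * ((i + 1 + j) ^ n * (k - i + (m - 1 - j)) ^ (k - n))) ≤
      D k m j n * (k.choose i * ((i + 1 + j) ^ i * (k - i + (m - 1 - j)) ^ (k - i))) := by
  set q := m - 1 - j with hq
  have hpos : 0 < j.factorial * q.factorial * k.factorial := by positivity
  have h1 := D_fact (p := j) (q := q) hi
  have h2 := D_fact (p := j) (q := q) hn
  have h3 := key_fact (p := j) (q := q) hi hn
  have e1 : D k m j i = (i + j).choose j * (k - i + q).choose q := rfl
  have e2 : D k m j n = (n + j).choose j * (k - n + q).choose q := rfl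
  rw [e1, e2]
  refine Nat.le_of_mul_le_mul_right ?_ hpos
  calc (i + j).choose j * (k - i + q).choose q *
        (k.choose n * ((i + 1 + j) ^ n * (k - i + q) ^ (k - n))) *
        (j.factorial * q.factorial * k.factorial)
      = ((i + j).choose j * (k - i + q).choose q *
        (j.factorial * q.factorial * k.factorial)) *
        (k.choose n * ((i + 1 + j) ^ n * (k - i + q) ^ (k - n))) := by ring
    _ = k.choose i * k.choose n * ((i + j).factorial * (k - i + q).factorial *
        ((i + 1 + j) ^ n * (k - i + q) ^ (k - n))) := by rw [h1]; ring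
    _ ≤ k.choose i * k.choose n * ((n + j).factorial * (k - n + q).factorial *
        ((i + 1 + j) ^ i * (k - i + q) ^ (k - i))) := Nat.mul_le_mul_left _ h3
    _ = ((n + j).choose j * (k - n + q).choose q *
        (j.factorial * q.factorial * k.factorial)) *
        (k.choose i * ((i + 1 + j) ^ i * (k - i + q) ^ (k - i))) := by rw [h2]; ring
    _ = _ := by ring

/-- the middle values of the number of elements of the chain below an element -/
lemma D_mid {k m j i : ℕ} (hk : 6 ≤ k) (h2 : 2 ≤ i) (h2' : i + 2 ≤ k) (hj : j < m) :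
    303 * D k m j i < 100 * (k + m).choose m := by
  set q := m - 1 - j with hq
  set x : ℕ := i + 1 + j with hx
  set y : ℕ := k - i + q with hy
  have hx0 : 0 < x := by omega
  have hy0 : 0 < y := by omega
  have hsum : D k m j i * (x + y) ^ k ≤ (k + m).choose m * (k.choose i * (x ^ i * y ^ (k - i))) := by
    rw [add_pow, Finset.mul_sum, ← sum_D hj, Finset.sum_mul]
    apply Finset.sum_le_sum
    intro n hn
    rw [mem_range] at hn
    have := D_compare (m := m) (j := j) (show i ≤ k by omega) (show n ≤ k by omega)
    calc D k m j i * (x ^ n * y ^ (k - n) * k.choose n)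
        = D k m j i * (k.choose n * (x ^ n * y ^ (k - n))) := by ring
      _ ≤ _ := this
  have hbin := bin_lt k i (k - i) (by omega) hk h2 (by omega) (x : ℝ) (y : ℝ)
    (by exact_mod_cast hx0) (by exact_mod_cast hy0)
  have hbin' : 303 * k.choose i * x ^ i * y ^ (k - i) < 100 * (x + y) ^ k := by
    have : (303 : ℝ) * k.choose i * x ^ i * y ^ (k - i) < 100 * ((x : ℝ) + y) ^ k := by linarith
    exact_mod_cast this
  have hD : 0 < D k m j i := Nat.mul_pos (Nat.choose_pos (by omega)) (Nat.choose_pos (by omega))
  have hpos : 0 < k.choose i * (x ^ i * y ^ (k - i)) := by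
    have : 0 < k.choose i := Nat.choose_pos (by omega)
    positivity
  have h5 : D k m j i * (303 * k.choose i * x ^ i * y ^ (k - i)) <
      D k m j i * (100 * (x + y) ^ k) :=
    Nat.mul_lt_mul_of_pos_left hbin' hD
  have h6 : 303 * D k m j i * (k.choose i * (x ^ i * y ^ (k - i))) <
      100 * (k + m).choose m * (k.choose i * (x ^ i * y ^ (k - i))) := by
    calc 303 * D k m j i * (k.choose i * (x ^ i * y ^ (k - i)))
        = D k m j i * (303 * k.choose i * x ^ i * y ^ (k - i)) := by ring
      _ < D k m j i * (100 * (x + y) ^ k) := h5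
      _ = 100 * (D k m j i * (x + y) ^ k) := by ring
      _ ≤ 100 * ((k + m).choose m * (k.choose i * (x ^ i * y ^ (k - i)))) :=
          Nat.mul_le_mul_left _ hsum
      _ = _ := by ring
  exact lt_of_mul_lt_mul_right h6 (Nat.zero_le _)

/-- sum over the positions -/
lemma sum_D_pos {k m i : ℕ} (hi : i ≤ k) (hm : 1 ≤ m) :
    ∑ j ∈ range m, D k m j i = (k + m).choose (k + 1) := by
  have h1 := sum_D (k := m - 1) (m := k + 1) (j := i) (by omega)
  rw [show m - 1 + 1 = m by omega, show m - 1 + (k + 1) = k + m by omega] at h1
  rw [← h1]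
  apply Finset.sum_congr rfl
  intro j hj
  rw [mem_range] at hj
  unfold D
  rw [show k + 1 - 1 - i = k - i by omega, add_comm j i, Nat.choose_symm_add,
    add_comm (m - 1 - j) (k - i)]
  congr 1
  exact Nat.choose_symm_add.symm

end Pool.Agent.H175.IE
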