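import Pool.Agent.H175.IE.Base
import Pool.Graph.R_seed8.Y491.ID.Main

/-!
# From balance constants greater than `1/3` to a uniform gap
-/

set_option autoImplicit false

open Finset

namespace Pool.Agent.H175.IE

open Pool.Agent.H13R3.WB Pool.Agent.H931R3.Bal Pool.Agent.R636.BG

/-- a poset with at most `N` elements and balance constant greater than `1/3` has balance constant
at least `1/3 + 1/(3 N!)` -/
lemma quant {P : Type} [Fintype P] [PartialOrder P] [Nonempty P] {N : ℕ}
    (hN : Fintype.card P ≤ N) (hb : 1 / 3 < balance P) :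
    1 / 3 + 1 / (3 * (N.factorial : ℝ)) ≤ balance P := by
  classical
  obtain ⟨p, hp⟩ : ∃ p : P × P, min (prob P p.1 p.2) (prob P p.2 p.1) = balance P := by
    unfold balance
    exact exists_eq_ciSup_of_finite
  have key : ∀ x y : P, 1 / 3 < prob P x y → 1 / 3 + 1 / (3 * (N.factorial : ℝ)) ≤ prob P x y := by
    intro x y h
    unfold prob at h ⊢
    set a : ℕ := Nat.card {f : P ≃ Fin (Fintype.card P) // Monotone f ∧ f x < f y}
    set b : ℕ := Nat.card {f : P ≃ Fin (Fintype.card P) // Monotone f} with hbdef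
    have hble : b ≤ N.factorial := by
      rw [hbdef]
      calc Nat.card {f : P ≃ Fin (Fintype.card P) // Monotone f}
          ≤ Nat.card (P ≃ Fin (Fintype.card P)) :=
            Nat.card_le_card_of_injective (fun f => f.1) Subtype.val_injective
        _ = (Fintype.card P).factorial := by
            rw [Nat.card_eq_fintype_card, Fintype.card_equiv (Fintype.equivFin P)]
        _ ≤ N.factorial := Nat.factorial_le hN
    have hbpos : 0 < b := by
      rcases Nat.eq_zero_or_pos b with h0 | h0
      · rw [h0] at h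
        norm_num at h
      · exact h0
    have hbR : (0 : ℝ) < b := by exact_mod_cast hbpos
    have hNR : (0 : ℝ) < N.factorial := by exact_mod_cast Nat.factorial_pos N
    rw [lt_div_iff₀ hbR] at h
    have h1 : b < 3 * a := by
      have : (b : ℝ) < 3 * a := by linarith
      exact_mod_cast this
    have h2 : (b : ℝ) + 1 ≤ 3 * a := by exact_mod_cast h1
    have h3 : (b : ℝ) ≤ N.factorial := by exact_mod_cast hble
    have h4 : 1 / (3 * (N.factorial : ℝ)) ≤ 1 / (3 * (b : ℝ)) := by
      apply one_div_le_one_div_of_le (by positivity)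
      linarith
    have h5 : (1 : ℝ) / 3 + 1 / (3 * (b : ℝ)) ≤ a / b := by
      rw [le_div_iff₀ hbR]
      have : ((1 : ℝ) / 3 + 1 / (3 * (b : ℝ))) * b = (b + 1) / 3 := by
        field_simp
      rw [this]
      linarith
    linarith
  rw [← hp] at hb ⊢
  have h1 := lt_min_iff.1 hb
  exact le_min (key _ _ h1.1) (key _ _ h1.2)

/-- **The uniform gap.**  For a class of posets, each of which has an element incomparable to at
least `g - 1` of its `g` elements, say. -/
lemma uniform : ∃ ε : ℝ, 0 < ε ∧ ∀ (P : Type) [Fintype P] [PartialOrder P] (x : P) (c : ℕ),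
    Fintype.card P ≤ c * (Nat.card {y : P // ¬ x ≤ y ∧ ¬ y ≤ x} + 1) → c ≤ 4 →
    1 / 3 < balance P → 1 / 3 + ε ≤ balance P := by
  obtain ⟨B, hB, h⟩ := Pool.Agent.Y491.ID.incomparable_balance
  obtain ⟨K, hK⟩ := exists_nat_ge (Real.exp (B * Real.log (2 / (1 / 12 : ℝ)) ^ 3 / (1 / 12) ^ 4))
  refine ⟨min (1 / 12) (1 / (3 * ((4 * (K + 1)).factorial : ℝ))), ?_, ?_⟩
  · apply lt_min (by norm_num)
    have : (0 : ℝ) < ((4 * (K + 1)).factorial : ℝ) := by exact_mod_cast Nat.factorial_pos _
    positivity
  intro P _ _ x c hc hc4 hb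
  have : Nonempty P := ⟨x⟩
  rcases le_or_gt K (Nat.card {y : P // ¬ x ≤ y ∧ ¬ y ≤ x}) with h1 | h1
  · have h2 := h (1 / 12) (by norm_num) (by norm_num) P x
      (hK.trans (by exact_mod_cast h1))
    have := min_le_left (1 / 12 : ℝ) (1 / (3 * ((4 * (K + 1)).factorial : ℝ)))
    linarith
  · have h3 : Fintype.card P ≤ 4 * (K + 1) := by
      refine hc.trans ?_
      exact Nat.mul_le_mul hc4 (by omega)
    have h4 := quant h3 hb
    have := min_le_right (1 / 12 : ℝ) (1 / (3 * ((4 * (K + 1)).factorial : ℝ)))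
    linarith

end Pool.Agent.H175.IE
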