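import Pool.Agent.H175.IE.DBound
import Pool.Agent.H175.IE.Chain

/-!
# The disjoint sum of an arbitrary poset and a chain with at least six elements
-/

set_option autoImplicit false

open Finset

namespace Pool.Agent.H175.IE

open Pool.Agent.H13R3.WB (prob balance InD)
open Pool.Agent.H931R3.Bal Pool.Agent.R636.BG

/-- the averages over all elements add up to the sum over all positions -/
lemma sum_avg {Q : Type} [Fintype Q] [PartialOrder Q] {m : ℕ} (hm : Fintype.card Q = m)
    (φ : ℕ → ℝ) : ∑ y : Q, avg Q m y φ = ∑ j ∈ range m, φ j := by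
  classical
  unfold avg
  rw [← Finset.sum_div, Finset.sum_comm]
  have h1 : ∀ f : LEn Q m, ∑ y : Q, φ (f.1 y) = ∑ j ∈ range m, φ j := by
    intro f
    rw [← Fin.sum_univ_eq_sum_range]
    exact Equiv.sum_comp f.1 (fun j : Fin m => φ j)
  rw [Finset.sum_congr rfl (fun f _ => h1 f), Finset.sum_const, Finset.card_univ, nsmul_eq_mul]
  have := card_ne hm
  field_simp

lemma avg_mono {Q : Type} [Fintype Q] [PartialOrder Q] {m : ℕ} (hm : Fintype.card Q = m) {y : Q}
    {φ ψ : ℕ → ℝ} (h : ∀ j < m, φ j ≤ ψ j) : avg Q m y φ ≤ avg Q m y ψ := by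
  unfold avg
  have h1 : (0 : ℝ) < Fintype.card (LEn Q m) :=
    lt_of_le_of_ne (by positivity) (Ne.symm (card_ne hm))
  rw [div_le_div_iff_of_pos_right h1]
  exact Finset.sum_le_sum fun f _ => h _ (f.1 y).2

lemma avg_lt {Q : Type} [Fintype Q] [PartialOrder Q] {m : ℕ} (hm : Fintype.card Q = m) {y : Q}
    {φ ψ : ℕ → ℝ} (h : ∀ j < m, φ j < ψ j) : avg Q m y φ < avg Q m y ψ := by
  unfold avg
  have h1 : (0 : ℝ) < Fintype.card (LEn Q m) :=
    lt_of_le_of_ne (by positivity) (Ne.symm (card_ne hm))
  rw [div_lt_div_iff_of_pos_right h1]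
  have hneL : (univ : Finset (LEn Q m)).Nonempty := by
    rw [← Finset.card_pos, Finset.card_univ]
    exact_mod_cast h1
  exact Finset.sum_lt_sum_of_nonempty hneL fun f _ => h _ (f.1 y).2

lemma avg_add {Q : Type} [Fintype Q] [PartialOrder Q] {m : ℕ} {y : Q}
    (φ ψ : ℕ → ℝ) : avg Q m y (fun j => φ j + ψ j) = avg Q m y φ + avg Q m y ψ := by
  unfold avg
  rw [Finset.sum_add_distrib, add_div]

lemma Kf_antitone {k m j : ℕ} (hj : j < m) {a b : ℕ} (hab : a ≤ b) (hb : b ≤ k + 1) :
    Kf k m j b ≤ Kf k m j a := by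
  induction b, hab using Nat.le_induction with
  | base => exact le_rfl
  | succ b hab ih =>
    have h1 := Kf_step (n := k) (i := b) hj (by omega)
    have h2 := ih (by omega)
    omega

/-- **A chain with at least six elements.** The disjoint sum of an arbitrary nonempty poset and
a chain with at least six elements has balance constant at least `1/3 + 1/1000`. -/
theorem six_chain {Q : Type} [Fintype Q] [PartialOrder Q] {m k : ℕ} (hm : Fintype.card Q = m)
    (hm1 : 1 ≤ m) (hk : 6 ≤ k) : 1 / 3 + 1 / 1000 ≤ balance (Fin k ⊕ Q) := by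
  classical
  by_contra hcon
  push Not at hcon
  have hc : Fintype.card (Fin k ⊕ Q) = k + m := by rw [Fintype.card_sum, hm]; simp
  have hC : (0 : ℝ) < ((k + m).choose m : ℝ) := by exact_mod_cast Nat.choose_pos (by omega)
  let F : Q → ℕ → ℝ := fun y i => avg Q m y (fun j => (Kf k m j i : ℝ) / (k + m).choose m)
  have hF0 : ∀ y, F y 0 = 1 := by
    intro y
    have h1 : ∀ j < m, (fun j => (Kf k m j 0 : ℝ) / (k + m).choose m) j = (fun _ => (1 : ℝ)) j := by
      intro j hj
      simp only
      rw [Kf_zero hj, div_self hC.ne']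
    show avg Q m y _ = 1
    rw [avg_congr h1, avg_const' hm]
  have hFk : ∀ y, F y (k + 1) = 0 := by
    intro y
    have h1 : ∀ j < m, (fun j => (Kf k m j (k + 1) : ℝ) / (k + m).choose m) j =
        (fun _ => (0 : ℝ)) j := by
      intro j hj
      simp only
      rw [Kf_end hj]
      simp
    show avg Q m y _ = 0
    rw [avg_congr h1, avg_const' hm]
  have hanti : ∀ y, ∀ a b, a ≤ b → b ≤ k + 1 → F y b ≤ F y a := by
    intro y a b hab hb
    apply avg_mono hm
    intro j hj
    rw [div_le_div_iff_of_pos_right hC]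
    exact_mod_cast Kf_antitone hj hab hb
  have hmid : ∀ y, ∀ i, 2 ≤ i → i + 2 ≤ k → F y i < F y (i + 1) + 100 / 303 := by
    intro y i h2 h2'
    have h3 : F y (i + 1) + 100 / 303 =
        avg Q m y (fun j => (Kf k m j (i + 1) : ℝ) / (k + m).choose m + 100 / 303) := by
      rw [avg_add, avg_const' hm]
    rw [h3]
    apply avg_lt hm
    intro j hj
    have h1 := Kf_step hj (show i ≤ k by omega)
    have h4 := D_mid hk h2 h2' hj
    rw [h1, div_add' _ _ _ hC.ne', div_lt_div_iff_of_pos_right hC]
    have h5 : (303 : ℝ) * (D k m j i : ℝ) < 100 * ((k + m).choose m : ℝ) := by exact_mod_cast h4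
    push_cast
    linarith
  -- every element is in one of the four gaps at the ends of the chain
  have hG : ∀ y, 2 / 3 - 1 / 1000 ≤ 1 - F y 2 + F y (k - 1) := by
    intro y
    have hex : ∃ i, F y i < 2 / 3 - 1 / 1000 := ⟨k + 1, by rw [hFk]; norm_num⟩
    have hi0 := Nat.find_spec hex
    have hmin : ∀ j, j < Nat.find hex → ¬ F y j < 2 / 3 - 1 / 1000 :=
      fun j hj => Nat.find_min hex hj
    have hle : Nat.find hex ≤ k + 1 := Nat.find_min' hex (by rw [hFk]; norm_num)
    set i₀ := Nat.find hex with hi₀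
    have hpos : 0 < i₀ := by
      rcases Nat.eq_zero_or_pos i₀ with h | h
      · rw [h, hF0] at hi0
        norm_num at hi0
      · exact h
    have h1 := hmin (i₀ - 1) (by omega)
    push Not at h1
    have hlow : F y i₀ ≤ 1 / 3 + 1 / 1000 := by
      rcases Nat.eq_or_lt_of_le hle with h | h
      · rw [h, hFk]; norm_num
      · have hprob : prob (Fin k ⊕ Q) (Sum.inl ⟨i₀ - 1, by omega⟩) (Sum.inr y) = F y i₀ := by
          rw [prob_eq hc, pr_disj_cross (by simp) hm, avg_chain]
          show avg Q m y _ = avg Q m y _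
          apply avg_congr
          intro j hj
          simp only
          rw [FF_eq_Kf (by omega) hj, show i₀ - 1 + 1 = i₀ by omega]
        have h5 := prob_add (P := Fin k ⊕ Q) (x := Sum.inl ⟨i₀ - 1, by omega⟩) (y := Sum.inr y)
          (by simp)
        have h6 := (le_balance (P := Fin k ⊕ Q) (Sum.inl ⟨i₀ - 1, by omega⟩) (Sum.inr y)).trans
          hcon.le
        rw [hprob] at h5 h6
        rcases min_le_iff.1 h6 with h7 | h7
        · exact h7
        · linarith
    have hcases : i₀ ≤ 2 ∨ k ≤ i₀ := by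
      by_contra hc2
      push Not at hc2
      have h2 := hmid y (i₀ - 1) (by omega) (by omega)
      rw [show i₀ - 1 + 1 = i₀ by omega] at h2
      linarith
    rcases hcases with h | h
    · have h2 := hanti y i₀ 2 h (by omega)
      have h3 := hanti y (k - 1) (k + 1) (by omega) le_rfl
      rw [hFk] at h3
      linarith
    · have h2 := hanti y (k - 1) (i₀ - 1) (by omega) (by omega)
      have h3 := hanti y 0 2 (by omega) (by omega)
      rw [hF0] at h3
      linarith
  -- the sum of these probabilities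
  have hsum1 : ∀ i ≤ k, ∑ y, (F y i - F y (i + 1)) = (m : ℝ) / (k + 1) := by
    intro i hi
    have h1 : ∀ y, F y i - F y (i + 1) =
        avg Q m y (fun j => (D k m j i : ℝ) / (k + m).choose m) := by
      intro y
      have h2 : F y i = avg Q m y (fun j => (D k m j i : ℝ) / (k + m).choose m +
          (Kf k m j (i + 1) : ℝ) / (k + m).choose m) := by
        apply avg_congr
        intro j hj
        rw [Kf_step hj hi]
        push_cast
        rw [add_div]
      rw [h2, avg_add]
      show _ + F y (i + 1) - F y (i + 1) = _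
      ring
    rw [Finset.sum_congr rfl (fun y _ => h1 y), sum_avg hm, ← Finset.sum_div]
    have h3 : ∑ j ∈ range m, (D k m j i : ℝ) = ((k + m).choose (k + 1) : ℝ) := by
      rw [← sum_D_pos hi hm1]
      push_cast
      rfl
    rw [h3]
    have h2 : (k + m).choose (k + 1) * (k + 1) = (k + m).choose k * (k + m - k) :=
      Nat.choose_succ_right_eq (k + m) k
    rw [Nat.choose_symm_add, show k + m - k = m by omega] at h2
    have h4 : ((k + m).choose (k + 1) : ℝ) * (k + 1) = ((k + m).choose m : ℝ) * m := by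
      exact_mod_cast h2
    rw [div_eq_div_iff hC.ne' (by positivity), h4]
    ring
  have hsum : ∑ y, (1 - F y 2 + F y (k - 1)) = 4 * ((m : ℝ) / (k + 1)) := by
    have e : ∀ y, 1 - F y 2 + F y (k - 1) =
        (F y 0 - F y (0 + 1)) + (F y 1 - F y (1 + 1)) + (F y (k - 1) - F y (k - 1 + 1)) +
        (F y k - F y (k + 1)) := by
      intro y
      rw [hF0, hFk, show k - 1 + 1 = k by omega]
      ring
    rw [Finset.sum_congr rfl (fun y _ => e y)]
    simp only [Finset.sum_add_distrib]
    rw [hsum1 0 (by omega), hsum1 1 (by omega), hsum1 (k - 1) (by omega), hsum1 k le_rfl]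
    ring
  have hlow : (m : ℝ) * (2 / 3 - 1 / 1000) ≤ ∑ y, (1 - F y 2 + F y (k - 1)) := by
    have : ∑ _y : Q, (2 / 3 - 1 / 1000 : ℝ) = (m : ℝ) * (2 / 3 - 1 / 1000) := by
      rw [Finset.sum_const, Finset.card_univ, hm, nsmul_eq_mul]
    rw [← this]
    exact Finset.sum_le_sum fun y _ => hG y
  rw [hsum] at hlow
  have hkR : (6 : ℝ) ≤ k := by exact_mod_cast hk
  have hmR : (1 : ℝ) ≤ m := by exact_mod_cast hm1
  have h7 : (m : ℝ) / (k + 1) ≤ m / 7 := by
    apply div_le_div_of_nonneg_left (by linarith) (by norm_num)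
    linarith
  linarith

end Pool.Agent.H175.IE
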