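import Pool.Agent.H175.IE.Point
import Pool.Agent.H175.IE.Chain
import Pool.Agent.H175.IE.Six
import Pool.Agent.H175.IE.Quant

/-!
# Autonomous subsets that are the disjoint sum of a chain and an arbitrary poset
-/

set_option autoImplicit false

open Finset

namespace Pool.Agent.H175.IE

open Pool.Agent.H13R3.WB (prob balance InD)
open Pool.Agent.H931R3.Bal Pool.Agent.R636.BG

/-- a finite totally ordered poset is isomorphic to `Fin k` -/
lemma chain_iso {C : Type} [Fintype C] [PartialOrder C] (h : ∀ x y : C, x ≤ y ∨ y ≤ x) :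
    Nonempty (C ≃o Fin (Fintype.card C)) := by
  classical
  letI : LinearOrder C := { (inferInstance : PartialOrder C) with
    le_total := h
    toDecidableLE := Classical.decRel _ }
  exact ⟨(Fintype.orderIsoFinOfCardEq C rfl).symm⟩

/-- a set which is the disjoint sum of two parts -/
lemma split_iso {P : Type} [PartialOrder P] {M C : Set P} (hCM : C ⊆ M)
    (hinc : ∀ x ∈ C, ∀ y ∈ M \ C, ¬ x ≤ y ∧ ¬ y ≤ x) :
    Nonempty ((C ⊕ ↑(M \ C)) ≃o M) := by
  classical
  refine ⟨{ toFun := fun s => Sum.elim (fun x : C => (⟨x.1, hCM x.2⟩ : M))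
              (fun y : ↑(M \ C) => (⟨y.1, y.2.1⟩ : M)) s
            invFun := fun z => if h : z.1 ∈ C then Sum.inl ⟨z.1, h⟩ else Sum.inr ⟨z.1, z.2, h⟩
            left_inv := ?_
            right_inv := ?_
            map_rel_iff' := ?_ }⟩
  · rintro (x | y)
    · simp
    · simp [y.2.2]
  · intro z
    by_cases h : z.1 ∈ C
    · simp [h]
    · simp [h]
  · rintro (x | y) (x' | y')
    · simp
    · simp only [Equiv.coe_fn_mk, Sum.elim_inl, Sum.elim_inr, Subtype.mk_le_mk,
        Sum.not_inl_le_inr, iff_false]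
      exact (hinc x.1 x.2 y'.1 y'.2).1
    · simp only [Equiv.coe_fn_mk, Sum.elim_inl, Sum.elim_inr, Subtype.mk_le_mk,
        Sum.not_inr_le_inl, iff_false]
      exact (hinc x'.1 x'.2 y.1 y.2).2
    · simp

/-- the two-element chain -/
lemma two_iso {Q : Type} [PartialOrder Q] {y z : Q} (hyz : y < z) (h : ∀ u, u = y ∨ u = z) :
    Nonempty (Q ≃o Fin 2) := by
  classical
  let hF : Fintype Q := ⟨{y, z}, fun u => by
    simp only [mem_insert, mem_singleton]
    exact h u⟩
  have hcard : Fintype.card Q = 2 := by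
    rw [← Finset.card_univ, Finset.card_eq_two]
    refine ⟨y, z, hyz.ne, ?_⟩
    ext u
    simp only [mem_univ, mem_insert, mem_singleton, true_iff]
    exact h u
  have htot : ∀ u v : Q, u ≤ v ∨ v ≤ u := by
    intro u v
    rcases h u with rfl | rfl <;> rcases h v with rfl | rfl
    · exact Or.inl le_rfl
    · exact Or.inl hyz.le
    · exact Or.inr hyz.le
    · exact Or.inl le_rfl
  obtain ⟨e⟩ := chain_iso htot
  rw [hcard] at e
  exact ⟨e⟩

theorem main : ∃ ε : ℝ, 0 < ε ∧ ∀ (P : Type) [Fintype P] [PartialOrder P] (M C : Set P),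
    Autonomous M → C ⊆ M → C.Nonempty → (M \ C).Nonempty → IsChain (· ≤ ·) C →
    (∀ x ∈ C, ∀ y ∈ M \ C, ¬ x ≤ y ∧ ¬ y ≤ x) →
    (Nat.card C = 1 ∨ 6 ≤ Nat.card C ∨ 3 * Nat.card ↑(M \ C) ≤ Nat.card C + 1) →
    1 / 3 ≤ balance P ∧ (Nonempty (M ≃o (Fin 2 ⊕ Fin 1)) ∨ 1 / 3 + ε ≤ balance P) := by
  classical
  obtain ⟨ε, h0, hu⟩ := uniform
  refine ⟨ε, h0, ?_⟩
  intro P _ _ M C hM hCM hC hD hch hinc hcard
  have hfM : Fintype M := Fintype.ofFinite M
  have hfC : Fintype C := Fintype.ofFinite C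
  have hfD : Fintype ↑(M \ C) := Fintype.ofFinite _
  have hnC : Nonempty C := hC.to_subtype
  have hnD : Nonempty ↑(M \ C) := hD.to_subtype
  have hnM : Nonempty M := ⟨⟨hC.some, hCM hC.some_mem⟩⟩
  have hMP : balance M ≤ balance P := balance_autonomous hM
  obtain ⟨e⟩ := split_iso hCM hinc
  have htot : ∀ x y : C, x ≤ y ∨ y ≤ x := by
    intro x y
    rcases eq_or_ne x y with rfl | h
    · exact Or.inl le_rfl
    · exact hch x.2 y.2 (fun h1 => h (Subtype.ext h1))
  obtain ⟨eC⟩ := chain_iso htot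
  rw [Nat.card_eq_fintype_card, Nat.card_eq_fintype_card] at hcard
  set k := Fintype.card C with hk
  set m := Fintype.card ↑(M \ C) with hm
  have hk1 : 1 ≤ k := Fintype.card_pos
  have hm1 : 1 ≤ m := Fintype.card_pos
  -- `M` is the disjoint sum of `Fin k` and `M \ C`
  have e1 : (Fin k ⊕ ↑(M \ C)) ≃o M :=
    (OrderIso.sumCongr eC.symm (OrderIso.refl _)).trans e
  have hR : balance (Fin k ⊕ ↑(M \ C)) ≤ balance M := by
    have : Nonempty (Fin k ⊕ ↑(M \ C)) := ⟨e1.symm (Classical.arbitrary M)⟩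
    exact balance_iso e1
  -- it is enough to have more than one third in the sum or the exceptional poset
  have finish : (Nonempty (M ≃o (Fin 2 ⊕ Fin 1)) ∨ 1 / 3 < balance (Fin k ⊕ ↑(M \ C))) →
      (1 / 3 < balance (Fin k ⊕ ↑(M \ C)) → 1 / 3 + ε ≤ balance (Fin k ⊕ ↑(M \ C))) →
      1 / 3 ≤ balance P ∧ (Nonempty (M ≃o (Fin 2 ⊕ Fin 1)) ∨ 1 / 3 + ε ≤ balance P) := by
    intro h1 h2
    rcases h1 with ⟨⟨f⟩⟩ | h1
    · refine ⟨?_, Or.inl ⟨f⟩⟩
      have h3 : balance (Fin 2 ⊕ Fin 1) ≤ balance M := balance_iso f.symm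
      have h4 : (1 : ℝ) / 3 ≤ balance (Fin 2 ⊕ Fin 1) := balance_EE_ge
      linarith
    · have h3 := h2 h1
      exact ⟨by linarith, Or.inr (by linarith)⟩
  rcases hcard with h1 | h6 | h1
  · -- one isolated element
    have hiso : (Fin k ⊕ ↑(M \ C)) ≃o (↑(M \ C) ⊕ Fin 1) := by
      rw [h1]
      exact OrderIso.sumComm _ _
    have hb : balance (Fin k ⊕ ↑(M \ C)) = balance (↑(M \ C) ⊕ Fin 1) := by
      have n1 : Nonempty (Fin k ⊕ ↑(M \ C)) := ⟨e1.symm (Classical.arbitrary M)⟩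
      have n2 : Nonempty (↑(M \ C) ⊕ Fin 1) := ⟨Sum.inr 0⟩
      exact le_antisymm (balance_iso hiso) (balance_iso hiso.symm)
    apply finish
    · by_cases hpt : 1 / 3 < balance (Fin k ⊕ ↑(M \ C))
      · exact Or.inr hpt
      · left
        obtain ⟨y, z, hyz, hall⟩ := point (Q := ↑(M \ C)) (by rw [← hb]; exact not_lt.1 hpt)
        obtain ⟨e2⟩ := two_iso hyz hall
        exact ⟨(e1.symm.trans hiso).trans (OrderIso.sumCongr e2 (OrderIso.refl _))⟩
    · intro h2
      rw [hb] at h2 ⊢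
      refine hu _ (Sum.inr 0) 1 ?_ (by norm_num) h2
      have h3 : Nat.card ↑(M \ C) ≤ Nat.card {y : ↑(M \ C) ⊕ Fin 1 //
          ¬ (Sum.inr 0 : ↑(M \ C) ⊕ Fin 1) ≤ y ∧ ¬ y ≤ Sum.inr 0} :=
        Nat.card_le_card_of_injective
          (fun d => ⟨Sum.inl d, Sum.not_inr_le_inl, Sum.not_inl_le_inr⟩)
          (fun a b hab => Sum.inl_injective (congrArg Subtype.val hab))
      rw [Nat.card_eq_fintype_card, ← hm] at h3
      rw [Fintype.card_sum, ← hm, Fintype.card_fin]
      omega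
  · -- a chain with at least six elements
    apply finish
    · have h7 := six_chain (Q := ↑(M \ C)) hm.symm hm1 h6
      right
      linarith
    · intro h2
      rcases le_total k m with hkm | hkm
      · -- an element of the chain
        refine hu _ (Sum.inl (⟨0, by omega⟩ : Fin k)) 2 ?_ (by norm_num) h2
        have h3 : Nat.card ↑(M \ C) ≤ Nat.card {y : Fin k ⊕ ↑(M \ C) //
            ¬ (Sum.inl (⟨0, by omega⟩ : Fin k) : Fin k ⊕ ↑(M \ C)) ≤ y ∧
            ¬ y ≤ Sum.inl (⟨0, by omega⟩ : Fin k)} :=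
          Nat.card_le_card_of_injective
            (fun d => ⟨Sum.inr d, Sum.not_inl_le_inr, Sum.not_inr_le_inl⟩)
            (fun a b hab => Sum.inr_injective (congrArg Subtype.val hab))
        rw [Nat.card_eq_fintype_card, ← hm] at h3
        rw [Fintype.card_sum, ← hm, Fintype.card_fin]
        omega
      · refine hu _ (Sum.inr (Classical.arbitrary ↑(M \ C))) 2 ?_ (by norm_num) h2
        have h3 : Nat.card (Fin k) ≤ Nat.card {y : Fin k ⊕ ↑(M \ C) //
            ¬ (Sum.inr (Classical.arbitrary ↑(M \ C)) : Fin k ⊕ ↑(M \ C)) ≤ y ∧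
            ¬ y ≤ Sum.inr (Classical.arbitrary ↑(M \ C))} :=
          Nat.card_le_card_of_injective
            (fun d => ⟨Sum.inl d, Sum.not_inr_le_inl, Sum.not_inl_le_inr⟩)
            (fun a b hab => Sum.inl_injective (congrArg Subtype.val hab))
        rw [Nat.card_eq_fintype_card, Fintype.card_fin] at h3
        rw [Fintype.card_sum, ← hm, Fintype.card_fin]
        omega
  · -- a long chain
    apply finish
    · by_cases hE : m = 1 ∧ k = 2
      · left
        obtain ⟨hm2, hk2⟩ := hE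
        have hsub : Subsingleton ↑(M \ C) := by
          rw [← Fintype.card_le_one_iff_subsingleton, ← hm, hm2]
        obtain ⟨eD⟩ := chain_iso (C := ↑(M \ C)) (fun x y => Or.inl (Subsingleton.elim x y).le)
        exact ⟨e1.symm.trans (OrderIso.sumCongr (Fin.castOrderIso hk2)
          (eD.trans (Fin.castOrderIso (hm.symm.trans hm2))))⟩
      · right
        exact long_chain hm.symm hm1 h1 hE
    · intro h2
      refine hu _ (Sum.inr (Classical.arbitrary ↑(M \ C))) 2 ?_ (by norm_num) h2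
      have h3 : Nat.card (Fin k) ≤ Nat.card {y : Fin k ⊕ ↑(M \ C) //
          ¬ (Sum.inr (Classical.arbitrary ↑(M \ C)) : Fin k ⊕ ↑(M \ C)) ≤ y ∧
          ¬ y ≤ Sum.inr (Classical.arbitrary ↑(M \ C))} :=
        Nat.card_le_card_of_injective
          (fun d => ⟨Sum.inl d, Sum.not_inr_le_inl, Sum.not_inl_le_inr⟩)
          (fun a b hab => Sum.inl_injective (congrArg Subtype.val hab))
      rw [Nat.card_eq_fintype_card, Fintype.card_fin] at h3
      rw [Fintype.card_sum, ← hm, Fintype.card_fin]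
      omega

/-- a chain with at least six elements: an explicit gap -/
theorem main_six (P : Type) [Fintype P] [PartialOrder P] (M C : Set P)
    (hM : Autonomous M) (hCM : C ⊆ M) (hD : (M \ C).Nonempty) (hch : IsChain (· ≤ ·) C)
    (hinc : ∀ x ∈ C, ∀ y ∈ M \ C, ¬ x ≤ y ∧ ¬ y ≤ x) (h6 : 6 ≤ Nat.card C) :
    1 / 3 + 1 / 1000 ≤ balance P := by
  classical
  have hfM : Fintype M := Fintype.ofFinite M
  have hfC : Fintype C := Fintype.ofFinite C
  have hfD : Fintype ↑(M \ C) := Fintype.ofFinite _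
  have hnD : Nonempty ↑(M \ C) := hD.to_subtype
  have hnM : Nonempty M := ⟨⟨hD.some, hD.some_mem.1⟩⟩
  have hMP : balance M ≤ balance P := balance_autonomous hM
  obtain ⟨e⟩ := split_iso hCM hinc
  have htot : ∀ x y : C, x ≤ y ∨ y ≤ x := by
    intro x y
    rcases eq_or_ne x y with rfl | h
    · exact Or.inl le_rfl
    · exact hch x.2 y.2 (fun h1 => h (Subtype.ext h1))
  obtain ⟨eC⟩ := chain_iso htot
  rw [Nat.card_eq_fintype_card] at h6
  set k := Fintype.card C with hk
  set m := Fintype.card ↑(M \ C) with hm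
  have hm1 : 1 ≤ m := Fintype.card_pos
  have e1 : (Fin k ⊕ ↑(M \ C)) ≃o M :=
    (OrderIso.sumCongr eC.symm (OrderIso.refl _)).trans e
  have hR : balance (Fin k ⊕ ↑(M \ C)) ≤ balance M := by
    have : Nonempty (Fin k ⊕ ↑(M \ C)) := ⟨e1.symm (Classical.arbitrary M)⟩
    exact balance_iso e1
  have h7 := six_chain (Q := ↑(M \ C)) hm.symm hm1 h6
  linarith

end Pool.Agent.H175.IE
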