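import Pool.Agent.H175.IE.Rate
import Pool.Agent.H175.IE.Six

/-!
# The disjoint sum of an arbitrary poset and a chain with `k` elements: `1/2 - 1/√(2 k)`
-/

set_option autoImplicit false

open Finset Real

namespace Pool.Agent.H175.IE

open Pool.Agent.H13R3.WB (prob balance InD)
open Pool.Agent.H931R3.Bal Pool.Agent.R636.BG

lemma D_le_bin {k m j i : ℕ} (hi : i ≤ k) (hj : j < m) :
    D k m j i * ((i + 1 + j) + (k - i + (m - 1 - j))) ^ k ≤
      (k + m).choose m * (k.choose i * ((i + 1 + j) ^ i * (k - i + (m - 1 - j)) ^ (k - i))) := by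
  rw [add_pow, Finset.mul_sum, ← sum_D hj, Finset.sum_mul]
  apply Finset.sum_le_sum
  intro n hn
  rw [mem_range] at hn
  have := D_compare (m := m) (j := j) hi (show n ≤ k by omega)
  calc D k m j i * ((i + 1 + j) ^ n * (k - i + (m - 1 - j)) ^ (k - n) * k.choose n)
      = D k m j i * (k.choose n * ((i + 1 + j) ^ n * (k - i + (m - 1 - j)) ^ (k - n))) := by ring
    _ ≤ _ := this

lemma numeric {k a i : ℕ} (ha : 1 ≤ a) (h1 : 4 * a ≤ k + 1) (h2 : k ≤ 4 * a + 2) (hi : a ≤ i)
    (hi2 : i + a ≤ k) : exp 1 * √(k : ℝ) * √(2 * k) ≤ 2 * (2 * π * √(i * ((k - i : ℕ) : ℝ))) := by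
  have hk0 : (0 : ℝ) < k := by exact_mod_cast (by omega : 0 < k)
  have hI : (a : ℝ) * (k - a) ≤ i * ((k - i : ℕ) : ℝ) := by
    rw [Nat.cast_sub (by omega)]
    have q1 : (a : ℝ) ≤ i := by exact_mod_cast hi
    have q2 : (i : ℝ) + a ≤ k := by exact_mod_cast hi2
    nlinarith
  have hK : (k : ℝ) ^ 2 ≤ 10 * (a * (k - a)) := by
    have q1 : (4 : ℝ) * a ≤ k + 1 := by exact_mod_cast h1
    have q2 : (k : ℝ) ≤ 4 * a + 2 := by exact_mod_cast h2
    have q3 : (1 : ℝ) ≤ a := by exact_mod_cast ha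
    nlinarith
  have he : exp 1 ^ 2 ≤ 739 / 100 := by
    have h3 := Real.exp_one_lt_d9
    have h4 := Real.exp_pos 1
    nlinarith
  have hpi : (78 : ℝ) ≤ 8 * π ^ 2 := by
    have h3 := Real.pi_gt_d2
    nlinarith
  have hl : exp 1 * √(k : ℝ) * √(2 * k) = √(2 * (exp 1) ^ 2 * k ^ 2) := by
    rw [show 2 * (exp 1) ^ 2 * (k : ℝ) ^ 2 = (exp 1) ^ 2 * (k * (2 * k)) by ring]
    rw [Real.sqrt_mul (sq_nonneg (exp 1)), Real.sqrt_sq (Real.exp_pos 1).le, mul_assoc,
      ← Real.sqrt_mul hk0.le]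
  have hr : 2 * (2 * π * √(i * ((k - i : ℕ) : ℝ))) =
      √(16 * π ^ 2 * (i * ((k - i : ℕ) : ℝ))) := by
    rw [show 16 * π ^ 2 = (4 * π) ^ 2 by ring, Real.sqrt_mul (sq_nonneg (4 * π)),
      Real.sqrt_sq (by positivity)]
    ring
  rw [hl, hr]
  apply Real.sqrt_le_sqrt
  have hpos : (0 : ℝ) ≤ i * ((k - i : ℕ) : ℝ) := by positivity
  have t1 : 2 * (exp 1) ^ 2 * (k : ℝ) ^ 2 ≤ 2 * (739 / 100) * (k : ℝ) ^ 2 := by gcongr
  have t2 : 2 * (739 / 100) * (k : ℝ) ^ 2 ≤ 2 * (739 / 100) * (10 * (i * ((k - i : ℕ) : ℝ))) := by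
    have : (k : ℝ) ^ 2 ≤ 10 * (i * ((k - i : ℕ) : ℝ)) := by linarith
    gcongr
  have t3 : 2 * (739 / 100) * (10 * (i * ((k - i : ℕ) : ℝ))) ≤
      16 * π ^ 2 * (i * ((k - i : ℕ) : ℝ)) := by
    have : 2 * (739 / 100) * 10 ≤ 16 * π ^ 2 := by linarith
    calc 2 * (739 / 100) * (10 * (i * ((k - i : ℕ) : ℝ)))
        = (2 * (739 / 100) * 10) * (i * ((k - i : ℕ) : ℝ)) := by ring
      _ ≤ _ := by gcongr
  exact t1.trans (t2.trans t3)

/-- the middle values of the number of elements of the chain below an element -/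
lemma D_rate {k m j i a : ℕ} (ha : 1 ≤ a) (h1 : 4 * a ≤ k + 1) (h2 : k ≤ 4 * a + 2) (hi : a ≤ i)
    (hi2 : i + a ≤ k) (hj : j < m) :
    (D k m j i : ℝ) * √(2 * k) ≤ 2 * ((k + m).choose m : ℝ) := by
  have hk0 : (0 : ℝ) < k := by exact_mod_cast (by omega : 0 < k)
  set q := m - 1 - j with hq
  have hx0 : (0 : ℝ) < ((i + 1 + j : ℕ) : ℝ) := by positivity
  have hy0 : (0 : ℝ) < ((k - i + q : ℕ) : ℝ) := by exact_mod_cast (by omega : 0 < k - i + q)
  have hA := D_le_bin (k := k) (m := m) (j := j) (i := i) (by omega) hj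
  rw [← hq] at hA
  have hB := bin_rate (i := i) (l := k - i) (by omega) (by omega) hx0 hy0
  rw [show i + (k - i) = k by omega] at hB
  have hik : (i : ℝ) + ((k - i : ℕ) : ℝ) = k := by
    rw [Nat.cast_sub (by omega)]; ring
  rw [hik] at hB
  have hA' : (D k m j i : ℝ) * (((i + 1 + j : ℕ) : ℝ) + ((k - i + q : ℕ) : ℝ)) ^ k ≤
      ((k + m).choose m : ℝ) * ((k.choose i : ℝ) * (((i + 1 + j : ℕ) : ℝ) ^ i *
        ((k - i + q : ℕ) : ℝ) ^ (k - i))) := by exact_mod_cast hA
  set x : ℝ := ((i + 1 + j : ℕ) : ℝ) with hx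
  set y : ℝ := ((k - i + q : ℕ) : ℝ) with hy
  have hN : 0 < (x + y) ^ k := by positivity
  have hC : (0 : ℝ) ≤ ((k + m).choose m : ℝ) := by positivity
  set R : ℝ := 2 * π * √(i * ((k - i : ℕ) : ℝ)) with hR
  have hl0 : (0 : ℝ) < ((k - i : ℕ) : ℝ) := by exact_mod_cast (by omega : 0 < k - i)
  have hi0 : (0 : ℝ) < (i : ℝ) := by exact_mod_cast (by omega : 0 < i)
  have hRpos : 0 < R := by positivity
  -- `D R ≤ C e √k`
  have h3 : (D k m j i : ℝ) * R ≤ ((k + m).choose m : ℝ) * (exp 1 * √(k : ℝ)) := by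
    have h4 : ((D k m j i : ℝ) * R) * (x + y) ^ k ≤
        (((k + m).choose m : ℝ) * (exp 1 * √(k : ℝ))) * (x + y) ^ k := by
      calc ((D k m j i : ℝ) * R) * (x + y) ^ k = ((D k m j i : ℝ) * (x + y) ^ k) * R := by ring
        _ ≤ (((k + m).choose m : ℝ) * ((k.choose i : ℝ) * (x ^ i * y ^ (k - i)))) * R := by gcongr
        _ = ((k + m).choose m : ℝ) * ((k.choose i : ℝ) * (x ^ i * y ^ (k - i)) * R) := by ring
        _ ≤ ((k + m).choose m : ℝ) * (exp 1 * √(k : ℝ) * (x + y) ^ k) := by gcongr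
        _ = _ := by ring
    exact le_of_mul_le_mul_right h4 hN
  have h5 := numeric ha h1 h2 hi hi2
  rw [← hR] at h5
  have h6 : ((D k m j i : ℝ) * √(2 * k)) * R ≤ (2 * ((k + m).choose m : ℝ)) * R := by
    calc ((D k m j i : ℝ) * √(2 * k)) * R = ((D k m j i : ℝ) * R) * √(2 * k) := by ring
      _ ≤ (((k + m).choose m : ℝ) * (exp 1 * √(k : ℝ))) * √(2 * k) := by gcongr
      _ = ((k + m).choose m : ℝ) * (exp 1 * √(k : ℝ) * √(2 * k)) := by ring
      _ ≤ ((k + m).choose m : ℝ) * (2 * R) := by gcongr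
      _ = _ := by ring
  exact le_of_mul_le_mul_right h6 hRpos

/-- **The rate.** The disjoint sum of an arbitrary nonempty poset and a chain with `k`
elements has balance constant at least `1/2 - 1/√(2 k)`. -/
theorem rate_chain {Q : Type} [Fintype Q] [PartialOrder Q] {m k : ℕ} (hm : Fintype.card Q = m)
    (hm1 : 1 ≤ m) (hk1 : 1 ≤ k) : 1 / 2 - 1 / √(2 * k) ≤ balance (Fin k ⊕ Q) := by
  classical
  have hk0 : (0 : ℝ) < k := by exact_mod_cast hk1
  have : Nonempty Q := Fintype.card_pos_iff.1 (by omega)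
  have hne : Nonempty (Fin k ⊕ Q) := ⟨Sum.inr (Classical.arbitrary Q)⟩
  rcases Nat.lt_or_ge k 3 with hk3 | hk3
  · -- trivial bound
    have h1 : (1 : ℝ) / 2 ≤ 1 / √(2 * k) := by
      apply one_div_le_one_div_of_le (by positivity)
      rw [Real.sqrt_le_left (by norm_num)]
      have : (k : ℝ) ≤ 2 := by exact_mod_cast (by omega : k ≤ 2)
      linarith
    have h2 : 0 ≤ balance (Fin k ⊕ Q) := by
      have y := Classical.arbitrary (Fin k ⊕ Q)
      refine le_trans ?_ (le_balance y y)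
      exact le_min (prob_nonneg _ _) (prob_nonneg _ _)
    linarith
  by_contra hcon
  push Not at hcon
  obtain ⟨a, ha, h4a, h4b⟩ : ∃ a, 1 ≤ a ∧ 4 * a ≤ k + 1 ∧ k ≤ 4 * a + 2 :=
    ⟨(k + 1) / 4, by omega, by omega, by omega⟩
  set β : ℝ := 1 / √(2 * k) with hβ
  have hS : 0 < √(2 * (k : ℝ)) := by positivity
  have hβ0 : 0 < β := by positivity
  have hc : Fintype.card (Fin k ⊕ Q) = k + m := by rw [Fintype.card_sum, hm]; simp
  have hC : (0 : ℝ) < ((k + m).choose m : ℝ) := by exact_mod_cast Nat.choose_pos (by omega)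
  let F : Q → ℕ → ℝ := fun y i => avg Q m y (fun j => (Kf k m j i : ℝ) / (k + m).choose m)
  have hF0 : ∀ y, F y 0 = 1 := by
    intro y
    have h1 : ∀ j < m, (fun j => (Kf k m j 0 : ℝ) / (k + m).choose m) j = (fun _ => (1 : ℝ)) j := by
      intro j hj
      simp only
      rw [Kf_zero hj, div_self hC.ne']
    show avg Q m y _ = 1
    rw [avg_congr h1, avg_const' hm]
  have hFk : ∀ y, F y (k + 1) = 0 := by
    intro y
    have h1 : ∀ j < m, (fun j => (Kf k m j (k + 1) : ℝ) / (k + m).choose m) j =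
        (fun _ => (0 : ℝ)) j := by
      intro j hj
      simp only
      rw [Kf_end hj]
      simp
    show avg Q m y _ = 0
    rw [avg_congr h1, avg_const' hm]
  have hanti : ∀ y, ∀ a b, a ≤ b → b ≤ k + 1 → F y b ≤ F y a := by
    intro y a b hab hb
    apply avg_mono hm
    intro j hj
    rw [div_le_div_iff_of_pos_right hC]
    exact_mod_cast Kf_antitone hj hab hb
  have hmid : ∀ y, ∀ i, a ≤ i → i + a ≤ k → F y i ≤ F y (i + 1) + 2 * β := by
    intro y i h2 h2'
    have h3 : F y (i + 1) + 2 * β =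
        avg Q m y (fun j => (Kf k m j (i + 1) : ℝ) / (k + m).choose m + 2 * β) := by
      rw [avg_add, avg_const' hm]
    rw [h3]
    apply avg_mono hm
    intro j hj
    have h1 := Kf_step hj (show i ≤ k by omega)
    have h4 := D_rate ha h4a h4b h2 h2' hj
    rw [h1, div_add' _ _ _ hC.ne', div_le_div_iff_of_pos_right hC]
    have h5 : (D k m j i : ℝ) ≤ 2 * β * ((k + m).choose m : ℝ) := by
      rw [hβ]
      have : 2 * (1 / √(2 * (k : ℝ))) * ((k + m).choose m : ℝ) =
          (2 * ((k + m).choose m : ℝ)) / √(2 * k) := by ring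
      rw [this, le_div_iff₀ hS]
      exact h4
    push_cast
    linarith
  -- every element is in one of the gaps at the ends of the chain
  have hG : ∀ y, 1 / 2 + β ≤ 1 - F y a + F y (k - a + 1) := by
    intro y
    have hex : ∃ i, F y i < 1 / 2 + β := ⟨k + 1, by rw [hFk]; linarith⟩
    have hi0 := Nat.find_spec hex
    have hmin : ∀ j, j < Nat.find hex → ¬ F y j < 1 / 2 + β := fun j hj => Nat.find_min hex hj
    have hle : Nat.find hex ≤ k + 1 := Nat.find_min' hex (by rw [hFk]; linarith)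
    set i₀ := Nat.find hex with hi₀
    have hβhalf : β < 1 / 2 := by
      rw [hβ]
      apply one_div_lt_one_div_of_lt (by norm_num)
      rw [Real.lt_sqrt (by norm_num)]
      have : (3 : ℝ) ≤ k := by exact_mod_cast hk3
      linarith
    have hpos : 0 < i₀ := by
      rcases Nat.eq_zero_or_pos i₀ with h | h
      · rw [h, hF0] at hi0
        linarith
      · exact h
    have h1 := hmin (i₀ - 1) (by omega)
    push Not at h1
    have hlow : F y i₀ < 1 / 2 - β := by
      rcases Nat.eq_or_lt_of_le hle with h | h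
      · rw [h, hFk]; linarith
      · have hprob : prob (Fin k ⊕ Q) (Sum.inl ⟨i₀ - 1, by omega⟩) (Sum.inr y) = F y i₀ := by
          rw [prob_eq hc, pr_disj_cross (by simp) hm, avg_chain]
          show avg Q m y _ = avg Q m y _
          apply avg_congr
          intro j hj
          simp only
          rw [FF_eq_Kf (by omega) hj, show i₀ - 1 + 1 = i₀ by omega]
        have h5 := prob_add (P := Fin k ⊕ Q) (x := Sum.inl ⟨i₀ - 1, by omega⟩) (y := Sum.inr y)
          (by simp)
        have h6 := (le_balance (P := Fin k ⊕ Q) (Sum.inl ⟨i₀ - 1, by omega⟩)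
          (Sum.inr y)).trans_lt hcon
        rw [hprob] at h5 h6
        rcases min_lt_iff.1 h6 with h7 | h7
        · exact h7
        · linarith
    have hcases : i₀ ≤ a ∨ k - a + 2 ≤ i₀ := by
      by_contra hc2
      push Not at hc2
      have h2 := hmid y (i₀ - 1) (by omega) (by omega)
      rw [show i₀ - 1 + 1 = i₀ by omega] at h2
      linarith
    rcases hcases with h | h
    · have h2 := hanti y i₀ a h (by omega)
      have h3 := hanti y (k - a + 1) (k + 1) (by omega) le_rfl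
      rw [hFk] at h3
      linarith
    · have h2 := hanti y (k - a + 1) (i₀ - 1) (by omega) (by omega)
      have h3 := hanti y 0 a (by omega) (by omega)
      rw [hF0] at h3
      linarith
  -- the sum of these probabilities
  have hsum1 : ∀ i ≤ k, ∑ y, (F y i - F y (i + 1)) = (m : ℝ) / (k + 1) := by
    intro i hi
    have h1 : ∀ y, F y i - F y (i + 1) =
        avg Q m y (fun j => (D k m j i : ℝ) / (k + m).choose m) := by
      intro y
      have h2 : F y i = avg Q m y (fun j => (D k m j i : ℝ) / (k + m).choose m +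
          (Kf k m j (i + 1) : ℝ) / (k + m).choose m) := by
        apply avg_congr
        intro j hj
        rw [Kf_step hj hi]
        push_cast
        rw [add_div]
      rw [h2, avg_add]
      show _ + F y (i + 1) - F y (i + 1) = _
      ring
    rw [Finset.sum_congr rfl (fun y _ => h1 y), sum_avg hm, ← Finset.sum_div]
    have h3 : ∑ j ∈ range m, (D k m j i : ℝ) = ((k + m).choose (k + 1) : ℝ) := by
      rw [← sum_D_pos hi hm1]
      push_cast
      rfl
    rw [h3]
    have h2 : (k + m).choose (k + 1) * (k + 1) = (k + m).choose k * (k + m - k) :=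
      Nat.choose_succ_right_eq (k + m) k
    rw [Nat.choose_symm_add, show k + m - k = m by omega] at h2
    have h4 : ((k + m).choose (k + 1) : ℝ) * (k + 1) = ((k + m).choose m : ℝ) * m := by
      exact_mod_cast h2
    rw [div_eq_div_iff hC.ne' (by positivity), h4]
    ring
  have hsA : ∑ y, (1 - F y a) = (a : ℝ) * ((m : ℝ) / (k + 1)) := by
    have e : ∀ y, 1 - F y a = ∑ i ∈ range a, (F y i - F y (i + 1)) := by
      intro y
      rw [Finset.sum_range_sub' (F y) a, hF0]
    rw [Finset.sum_congr rfl (fun y _ => e y), Finset.sum_comm]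
    rw [Finset.sum_congr rfl (fun i hi => hsum1 i (by rw [mem_range] at hi; omega))]
    rw [Finset.sum_const, card_range, nsmul_eq_mul]
  have hsB : ∑ y, F y (k - a + 1) = (a : ℝ) * ((m : ℝ) / (k + 1)) := by
    have e : ∀ y, F y (k - a + 1) =
        ∑ i ∈ range a, (F y (k - a + 1 + i) - F y (k - a + 1 + (i + 1))) := by
      intro y
      rw [Finset.sum_range_sub' (fun i => F y (k - a + 1 + i)) a]
      rw [show k - a + 1 + a = k + 1 by omega, hFk]
      simp
    have hq : ∀ i ∈ range a, ∑ y, (F y (k - a + 1 + i) - F y (k - a + 1 + (i + 1))) =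
        (m : ℝ) / (k + 1) := by
      intro i hi
      rw [mem_range] at hi
      exact hsum1 (k - a + 1 + i) (by omega)
    rw [Finset.sum_congr rfl (fun y _ => e y), Finset.sum_comm]
    rw [Finset.sum_congr rfl hq]
    rw [Finset.sum_const, card_range, nsmul_eq_mul]
  have hsum : ∑ y, (1 - F y a + F y (k - a + 1)) = 2 * a * ((m : ℝ) / (k + 1)) := by
    rw [Finset.sum_add_distrib, hsA, hsB]
    ring
  have hlow : (m : ℝ) * (1 / 2 + β) ≤ ∑ y, (1 - F y a + F y (k - a + 1)) := by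
    have : ∑ _y : Q, (1 / 2 + β : ℝ) = (m : ℝ) * (1 / 2 + β) := by
      rw [Finset.sum_const, Finset.card_univ, hm, nsmul_eq_mul]
    rw [← this]
    exact Finset.sum_le_sum fun y _ => hG y
  rw [hsum] at hlow
  have hmR : (1 : ℝ) ≤ m := by exact_mod_cast hm1
  have h4R : (4 : ℝ) * a ≤ k + 1 := by exact_mod_cast h4a
  have h7 : 2 * (a : ℝ) * ((m : ℝ) / (k + 1)) ≤ m / 2 := by
    rw [mul_div_assoc', div_le_div_iff₀ (by positivity) (by norm_num)]
    nlinarith
  nlinarith

end Pool.Agent.H175.IE
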