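import Pool.Agent.H175.IE.Main
import Pool.Agent.H175.IE.RateChain

/-!
# Autonomous subsets with a chain as a component: the bound `1/2 - 1/√(2 k)`
-/

set_option autoImplicit false

open Finset

namespace Pool.Agent.H175.IE

open Pool.Agent.H13R3.WB (prob balance InD)
open Pool.Agent.H931R3.Bal Pool.Agent.R636.BG

theorem main_rate (P : Type) [Fintype P] [PartialOrder P] (M C : Set P)
    (hM : Autonomous M) (hCM : C ⊆ M) (hC : C.Nonempty) (hD : (M \ C).Nonempty)
    (hch : IsChain (· ≤ ·) C) (hinc : ∀ x ∈ C, ∀ y ∈ M \ C, ¬ x ≤ y ∧ ¬ y ≤ x) :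
    1 / 2 - 1 / Real.sqrt (2 * Nat.card C) ≤ balance P := by
  classical
  have hfM : Fintype M := Fintype.ofFinite M
  have hfC : Fintype C := Fintype.ofFinite C
  have hfD : Fintype ↑(M \ C) := Fintype.ofFinite _
  have hnC : Nonempty C := hC.to_subtype
  have hnD : Nonempty ↑(M \ C) := hD.to_subtype
  have hnM : Nonempty M := ⟨⟨hD.some, hD.some_mem.1⟩⟩
  have hMP : balance M ≤ balance P := balance_autonomous hM
  obtain ⟨e⟩ := split_iso hCM hinc
  have htot : ∀ x y : C, x ≤ y ∨ y ≤ x := by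
    intro x y
    rcases eq_or_ne x y with rfl | h
    · exact Or.inl le_rfl
    · exact hch x.2 y.2 (fun h1 => h (Subtype.ext h1))
  obtain ⟨eC⟩ := chain_iso htot
  rw [Nat.card_eq_fintype_card]
  set k := Fintype.card C with hk
  set m := Fintype.card ↑(M \ C) with hm
  have hk1 : 1 ≤ k := Fintype.card_pos
  have hm1 : 1 ≤ m := Fintype.card_pos
  have e1 : (Fin k ⊕ ↑(M \ C)) ≃o M :=
    (OrderIso.sumCongr eC.symm (OrderIso.refl _)).trans e
  have hR : balance (Fin k ⊕ ↑(M \ C)) ≤ balance M := by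
    have : Nonempty (Fin k ⊕ ↑(M \ C)) := ⟨e1.symm (Classical.arbitrary M)⟩
    exact balance_iso e1
  have h7 := rate_chain (Q := ↑(M \ C)) hm.symm hm1 hk1
  linarith

/-- comparison with a bound of the form `1/2 - 1/(12 w - 8)` -/
theorem main_step (P : Type) [Fintype P] [PartialOrder P] (M C : Set P)
    (hM : Autonomous M) (hCM : C ⊆ M) (hC : C.Nonempty) (hD : (M \ C).Nonempty)
    (hch : IsChain (· ≤ ·) C) (hinc : ∀ x ∈ C, ∀ y ∈ M \ C, ¬ x ≤ y ∧ ¬ y ≤ x)
    (w : ℕ) (hw : 1 ≤ w) (hcard : 288 * w ^ 2 ≤ Nat.card C) (d : ℝ)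
    (hd : d ≤ 1 / 2 - 1 / (12 * (w : ℝ) - 8)) : d + 1 / (24 * w) ≤ balance P := by
  have h1 := main_rate P M C hM hCM hC hD hch hinc
  have hw1 : (1 : ℝ) ≤ w := by exact_mod_cast hw
  have h2 : (24 * (w : ℝ)) ≤ Real.sqrt (2 * Nat.card C) := by
    apply Real.le_sqrt_of_sq_le
    have h3 : (288 : ℝ) * w ^ 2 ≤ Nat.card C := by exact_mod_cast hcard
    nlinarith
  have h3 : 1 / Real.sqrt (2 * Nat.card C) ≤ 1 / (24 * (w : ℝ)) :=
    one_div_le_one_div_of_le (by positivity) h2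
  have h4 : 1 / (12 * (w : ℝ)) ≤ 1 / (12 * (w : ℝ) - 8) :=
    one_div_le_one_div_of_le (by linarith) (by linarith)
  have h5 : 1 / (12 * (w : ℝ)) = 1 / (24 * w) + 1 / (24 * w) := by
    field_simp
    norm_num
  linarith

end Pool.Agent.H175.IE
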