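import Pool.Agent.H175.IE.Base
import Pool.Graph.R_pool_sql_team_seeded_35f281b4.K7.H20.Cyc

/-!
# A poset with an isolated element has balance constant at least `1/3`
-/

set_option autoImplicit false

open Finset

namespace Pool.Agent.H175.IE

open Pool.Agent.H13R3.WB Pool.Agent.H931R3.Bal Pool.Agent.R636.BG Pool.Agent.K7.H20.Cyc

lemma third_cases {P : Type} [Fintype P] [PartialOrder P] (hb : balance P ≤ 1 / 3) {u v : P}
    (huv : u ≠ v) : prob P u v ≤ 1 / 3 ∨ 2 / 3 ≤ prob P u v := by
  have h1 := prob_add huv
  have h2 := (le_balance u v).trans hb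
  rcases min_le_iff.1 h2 with h | h
  · exact Or.inl h
  · right; linarith

/-- the majority relation is a strict total order if the balance constant is at most `1/3` -/
lemma sto_of_third {P : Type} [Fintype P] [PartialOrder P] (hb : balance P ≤ 1 / 3) :
    IsStrictTotalOrder P (fun a b => 1 / 2 < prob P a b) := by
  obtain ⟨ε, h0, hc'⟩ := cycle_gap
  have hc : ∀ x : P, ¬ Relation.TransGen (fun a b : P => 1 / 2 < prob P a b) x x := by
    intro x hx
    have := hc' P (Or.inl ⟨x, hx⟩)
    linarith
  have hpair : ∀ x y : P, x ≠ y → 1 / 2 < prob P x y ∨ 1 / 2 < prob P y x := by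
    intro x y hxy
    have h1 := prob_add hxy
    rcases third_cases hb hxy with h | h
    · right; linarith
    · left; linarith
  have q1 : ∀ x : P, ¬ (1 / 2 < prob P x x) := fun x hx => hc x (Relation.TransGen.single hx)
  have q2 : ∀ x y z : P, 1 / 2 < prob P x y → 1 / 2 < prob P y z → 1 / 2 < prob P x z := by
    intro x y z hxy hyz
    have hxz : x ≠ z := by
      rintro rfl
      exact hc x (Relation.TransGen.tail (Relation.TransGen.single hxy) hyz)
    rcases hpair x z hxz with h | h
    · exact h
    · exact (hc x (Relation.TransGen.tail (Relation.TransGen.tail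
        (Relation.TransGen.single hxy) hyz) h)).elim
  have q3 : ∀ x y : P, ¬ (1 / 2 < prob P x y) → ¬ (1 / 2 < prob P y x) → x = y := by
    intro x y hx hy
    by_contra hne
    rcases hpair x y hne with h | h
    · exact hx h
    · exact hy h
  exact { irrefl := q1, trans := q2, trichotomous := q3 }

/-- two elements `v`, `w`, everything above `w` above `v`, nothing below `v` -/
lemma half_swap {P : Type} [Fintype P] [PartialOrder P] (hb : balance P ≤ 1 / 3) {v w : P}
    (hvw : w ≠ v) (h1 : ∀ u, u < v → u < w) (h2 : ∀ u, w < u → v < u) : prob P w v < 1 / 2 := by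
  obtain ⟨ε, h0, ha⟩ := arrow_gap
  by_contra hcon
  push Not at hcon
  have h3 : Arr P w v := ⟨hvw, Or.inl hcon⟩
  have h4 : Arr P v w := by
    refine ⟨hvw.symm, Or.inr (Or.inl ⟨h1, ?_, ?_⟩)⟩
    · intro a b ha _ hna _
      exact (hna (h2 a ha)).elim
    · rintro ⟨-, -, z, hz1, hz2, -⟩
      exact hz2 (h2 z hz1)
  have h5 := ha P (Or.inl ⟨w, Relation.TransGen.tail (Relation.TransGen.single h3) h4⟩)
  linarith

/-- **Isolated element.** The disjoint sum of an arbitrary nonempty poset and one element has
balance constant greater than `1/3`, unless it is the poset with three elements and one relation. -/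
theorem point {Q : Type} [Fintype Q] [PartialOrder Q] [Nonempty Q]
    (hb : balance (Q ⊕ Fin 1) ≤ 1 / 3) : ∃ y z : Q, y < z ∧ ∀ u, u = y ∨ u = z := by
  classical
  set m := Fintype.card Q with hm
  have hm1 : 1 ≤ m := Fintype.card_pos
  have hbQ : balance Q ≤ 1 / 3 := balance_sum_left.trans hb
  have hsto := sto_of_third hbQ
  -- the two estimates
  have key : ∀ v : Q, ∀ b : ℕ, (univ.filter (fun u => 1 / 2 < prob Q u v)).card = b →
      (2 / 3 : ℝ) * b ≤ ∑ u : Q, prob Q u v ∧
      ∑ u : Q, prob Q u v ≤ b + ((m : ℝ) - 1 - b) / 3 := by
    intro v b hbv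
    have hlow : ∀ u : Q, (if 1 / 2 < prob Q u v then (2 / 3 : ℝ) else 0) ≤ prob Q u v := by
      intro u
      split_ifs with h
      · rcases eq_or_ne u v with rfl | huv
        · rw [prob_self] at h; norm_num at h
        · rcases third_cases hbQ huv with h1 | h1
          · linarith
          · exact h1
      · exact prob_nonneg u v
    have hup : ∀ u : Q, prob Q u v ≤
        (if 1 / 2 < prob Q u v then (2 / 3 : ℝ) else 0) + (1 / 3 - if u = v then 1 / 3 else 0) := by
      intro u
      rcases eq_or_ne u v with rfl | huv
      · rw [prob_self]; norm_num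
      · rw [if_neg huv]
        split_ifs with h
        · have := prob_le_one u v
          linarith
        · rcases third_cases hbQ huv with h1 | h1
          · linarith
          · exfalso; apply h; linarith
    have hs : ∑ u : Q, (if 1 / 2 < prob Q u v then (2 / 3 : ℝ) else 0) = 2 / 3 * b := by
      rw [← Finset.sum_filter, Finset.sum_const, hbv, nsmul_eq_mul]
      ring
    constructor
    · rw [← hs]
      exact Finset.sum_le_sum fun u _ => hlow u
    · refine (Finset.sum_le_sum fun u _ => hup u).trans ?_
      rw [Finset.sum_add_distrib, hs, Finset.sum_sub_distrib, Finset.sum_const, Finset.card_univ,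
        Finset.sum_ite_eq' univ v, if_pos (mem_univ v), nsmul_eq_mul, ← hm]
      linarith
  have hprob : ∀ v : Q, prob (Q ⊕ Fin 1) (Sum.inr 0) (Sum.inl v) =
      (1 + ∑ u : Q, prob Q u v) / (m + 1) := fun v => prob_iso_pt hm.symm v
  have hmpos : (0 : ℝ) < (m : ℝ) + 1 := by positivity
  have hcase : ∀ v : Q, 3 * (1 + ∑ u : Q, prob Q u v) ≤ m + 1 ∨
      2 * ((m : ℝ) + 1) ≤ 3 * (1 + ∑ u : Q, prob Q u v) := by
    intro v
    rcases third_cases hb (u := Sum.inr 0) (v := Sum.inl v) (by simp) with h | h
    · left
      rw [hprob, div_le_iff₀ hmpos] at h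
      linarith
    · right
      rw [hprob, le_div_iff₀ hmpos] at h
      linarith
  rcases Nat.even_or_odd' m with ⟨c, hc | hc⟩
  · -- even: `m = 2 c`
    have hc1 : 1 ≤ c := by omega
    obtain ⟨v, hv⟩ := exists_rank_sto (fun u v : Q => 1 / 2 < prob Q u v) (c - 1) (by omega)
    have hv' := hv
    obtain ⟨k1, k2⟩ := key v (c - 1) hv
    have hcast : ((c - 1 : ℕ) : ℝ) = (c : ℝ) - 1 := by
      rw [Nat.cast_sub hc1]; norm_num
    have hmc : (m : ℝ) = 2 * c := by rw [hc]; push_cast; ring
    rw [hcast] at k1 k2
    rcases hcase v with h | h
    · -- equality everywhere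
      have hsum : ∑ u : Q, prob Q u v = 2 / 3 * ((c : ℝ) - 1) := by
        rw [hmc] at h
        linarith
      have hlow : ∀ u : Q, (if 1 / 2 < prob Q u v then (2 / 3 : ℝ) else 0) ≤ prob Q u v := by
        intro u
        split_ifs with h
        · rcases eq_or_ne u v with rfl | huv
          · rw [prob_self] at h; norm_num at h
          · rcases third_cases hbQ huv with h1 | h1
            · linarith
            · exact h1
        · exact prob_nonneg u v
      have hs : ∑ u : Q, (if 1 / 2 < prob Q u v then (2 / 3 : ℝ) else 0) =
          2 / 3 * ((c : ℝ) - 1) := by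
        rw [← Finset.sum_filter, Finset.sum_const, hv, nsmul_eq_mul, hcast]
        ring
      have heq : ∀ u : Q, prob Q u v = if 1 / 2 < prob Q u v then (2 / 3 : ℝ) else 0 := by
        have h0 : ∑ u : Q, (prob Q u v - if 1 / 2 < prob Q u v then (2 / 3 : ℝ) else 0) = 0 := by
          rw [Finset.sum_sub_distrib, hsum, hs, sub_self]
        rw [Finset.sum_eq_zero_iff_of_nonneg (fun u _ => sub_nonneg.2 (hlow u))] at h0
        intro u
        have := h0 u (mem_univ u)
        linarith
      -- all other elements are above `v`
      have habove : ∀ u : Q, u ≠ v → ¬ (1 / 2 < prob Q u v) → v < u := by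
        intro u huv hu
        have h1 := heq u
        rw [if_neg hu] at h1
        by_contra hlt
        have h2 : ¬ v ≤ u := fun hle => hlt (lt_of_le_of_ne hle huv.symm)
        have h3 := prob_pos_of_not_le h2
        linarith
      have hnotbelow : ∀ u : Q, ¬ u < v := by
        intro u hu
        have h1 : prob Q u v = 1 := by
          have h2 := prob_add (ne_of_lt hu)
          have h3 := prob_eq_zero_of_le hu.le
          linarith
        have h2 := heq u
        rw [if_pos (by rw [h1]; norm_num), h1] at h2
        norm_num at h2
      rcases (univ.filter (fun u => 1 / 2 < prob Q u v)).eq_empty_or_nonempty with he | hne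
      · -- `c = 1`, the two-element chain
        rw [he, Finset.card_empty] at hv'
        have hc2 : c = 1 := by
          have := hv'
          omega
        have hm2 : Fintype.card Q = 2 := by rw [← hm, hc, hc2]
        obtain ⟨a, b, hab, huniv⟩ := Finset.card_eq_two.1 (Finset.card_univ.trans hm2)
        have hall : ∀ u : Q, ¬ (1 / 2 < prob Q u v) := by
          intro u hu
          have : u ∈ univ.filter (fun u => 1 / 2 < prob Q u v) := by
            rw [mem_filter]; exact ⟨mem_univ u, hu⟩
          rw [he] at this
          exact absurd this (Finset.notMem_empty u)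
        have hv2 : v = a ∨ v = b := by
          have := mem_univ v
          rw [huniv] at this
          simpa using this
        rcases hv2 with rfl | rfl
        · refine ⟨v, b, habove b hab.symm (hall b), fun u => ?_⟩
          have := mem_univ u
          rw [huniv] at this
          simpa using this
        · refine ⟨v, a, habove a hab (hall a), fun u => ?_⟩
          have := mem_univ u
          rw [huniv] at this
          simp only [mem_insert, mem_singleton] at this
          exact this.symm
      · exfalso
        obtain ⟨w, hw⟩ := Finset.exists_maximal hne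
        have hwmem : w ∈ univ.filter (fun u => 1 / 2 < prob Q u v) := hw.1
        rw [mem_filter] at hwmem
        have hwv : w ≠ v := by
          rintro rfl
          have := hwmem.2
          rw [prob_self] at this
          norm_num at this
        have hhalf : prob Q w v < 1 / 2 := by
          apply half_swap hbQ hwv
          · intro u hu
            exact (hnotbelow u hu).elim
          · intro u hu
            have huv : u ≠ v := by
              rintro rfl
              exact hnotbelow w hu
            apply habove u huv
            intro hu2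
            have hmem : u ∈ univ.filter (fun u => 1 / 2 < prob Q u v) := by
              rw [mem_filter]; exact ⟨mem_univ u, hu2⟩
            exact absurd (hw.2 hmem hu.le) (not_le_of_gt hu)
        linarith [hwmem.2]
    · exfalso
      rw [hmc] at h k2
      linarith
  · -- odd: `m = 2 c + 1`
    exfalso
    obtain ⟨v, hv⟩ := exists_rank_sto (fun u v : Q => 1 / 2 < prob Q u v) c (by omega)
    obtain ⟨k1, k2⟩ := key v c hv
    have hmc : (m : ℝ) = 2 * c + 1 := by rw [hc]; push_cast; ring
    rw [hmc] at k2
    rcases hcase v with h | h
    · rw [hmc] at h; linarith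
    · rw [hmc] at h; linarith

end Pool.Agent.H175.IE
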