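import Mathlib

/-!
# Binomial probabilities away from the ends are less than `100/303`
-/

set_option autoImplicit false

open Finset

namespace Pool.Agent.H175.IE

lemma bin_base_two {x y : ℝ} (hx : 0 < x) (hy : 0 < y) :
    909 / 20 * x ^ 2 * y ^ 4 < (x + y) ^ 6 := by
  have h1 : (27 / 4) * (x * y ^ 2) ≤ (x + y) ^ 3 := by
    have h2 : 0 ≤ (x - y / 2) ^ 2 * (x + 4 * y) := by positivity
    nlinarith [h2]
  have h3 : 0 < x * y ^ 2 := by positivity
  have h4 : ((27 / 4) * (x * y ^ 2)) ^ 2 ≤ ((x + y) ^ 3) ^ 2 :=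
    pow_le_pow_left₀ (by positivity) h1 2
  have h5 : 0 < x ^ 2 * y ^ 4 := by positivity
  have h6 : ((x + y) ^ 3) ^ 2 = (x + y) ^ 6 := by ring
  have h7 : ((27 / 4) * (x * y ^ 2)) ^ 2 = (729 / 16) * (x ^ 2 * y ^ 4) := by ring
  rw [h6, h7] at h4
  nlinarith

lemma bin_base_three {x y : ℝ} (hx : 0 < x) (hy : 0 < y) :
    303 / 5 * x ^ 3 * y ^ 3 < (x + y) ^ 6 := by
  have h1 : 4 * (x * y) ≤ (x + y) ^ 2 := by nlinarith [sq_nonneg (x - y)]
  have h3 : 0 < x * y := by positivity
  have h4 : (4 * (x * y)) ^ 3 ≤ ((x + y) ^ 2) ^ 3 :=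
    pow_le_pow_left₀ (by positivity) h1 3
  have h5 : 0 < x ^ 3 * y ^ 3 := by positivity
  have h6 : ((x + y) ^ 2) ^ 3 = (x + y) ^ 6 := by ring
  have h7 : (4 * (x * y)) ^ 3 = 64 * (x ^ 3 * y ^ 3) := by ring
  rw [h6, h7] at h4
  nlinarith

lemma quartic {k x y : ℝ} (hk : 7 ≤ k) (hx : 0 < x) (hy : 0 < y) :
    0 < y ^ 4 + k * x * y ^ 3 - 203 / 200 * (k * (k - 1)) * (x ^ 2 * y ^ 2) +
      k * (k - 1) * (k - 2) / 6 * (x ^ 3 * y) +
      k * (k - 1) * (k - 2) * (k - 3) / 24 * x ^ 4 := by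
  set b : ℝ := 81 / 200 * (k - 3 / 2) with hb
  set d : ℝ := (k ^ 2 - 3 * k + 1) / 5 with hd
  have e1 : 0 < 2 * d + 2 * k * b - 203 / 200 * (k * (k - 1)) := by
    rw [hb, hd]
    nlinarith
  have e2 : 0 ≤ k * (k - 1) * (k - 2) / 6 - k * b ^ 2 := by
    have : 0 ≤ (k - 1) * (k - 2) / 6 - b ^ 2 := by
      rw [hb]
      nlinarith
    nlinarith
  have e3 : 0 ≤ k * (k - 1) * (k - 2) * (k - 3) / 24 - d ^ 2 := by
    have hw : 29 ≤ k ^ 2 - 3 * k + 1 := by nlinarith
    have : k * (k - 1) * (k - 2) * (k - 3) / 24 - d ^ 2 =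
        ((k ^ 2 - 3 * k + 1) ^ 2 - 25) / 600 := by
      rw [hd]
      ring
    rw [this]
    nlinarith
  have p1 : 0 < x ^ 2 * y ^ 2 := by positivity
  have p2 : 0 < x ^ 3 * y := by positivity
  have p3 : 0 < x ^ 4 := by positivity
  have s1 : 0 ≤ (y ^ 2 - d * x ^ 2) ^ 2 := sq_nonneg _
  have hk0 : 0 < k := by linarith
  have s2 : 0 ≤ k * x * y * (y - b * x) ^ 2 := by positivity
  have q1 := mul_pos e1 p1
  have q2 := mul_nonneg e2 p2.le
  have q3 := mul_nonneg e3 p3.le
  have : y ^ 4 + k * x * y ^ 3 - 203 / 200 * (k * (k - 1)) * (x ^ 2 * y ^ 2) +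
      k * (k - 1) * (k - 2) / 6 * (x ^ 3 * y) +
      k * (k - 1) * (k - 2) * (k - 3) / 24 * x ^ 4 =
      (y ^ 2 - d * x ^ 2) ^ 2 + k * x * y * (y - b * x) ^ 2 +
      (2 * d + 2 * k * b - 203 / 200 * (k * (k - 1))) * (x ^ 2 * y ^ 2) +
      (k * (k - 1) * (k - 2) / 6 - k * b ^ 2) * (x ^ 3 * y) +
      (k * (k - 1) * (k - 2) * (k - 3) / 24 - d ^ 2) * x ^ 4 := by ring
  rw [this]
  linarith

lemma choose_three (n : ℕ) : (((n + 3).choose 3 : ℕ) : ℝ) = (n + 3) * (n + 2) * (n + 1) / 6 := by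
  have h := Nat.descFactorial_eq_factorial_mul_choose (n + 3) 3
  simp only [Nat.descFactorial, Nat.factorial] at h
  have h2 : ((n + 1) * ((n + 2) * (n + 3)) : ℕ) = 6 * (n + 3).choose 3 := by
    rw [show n + 3 - 2 = n + 1 by omega, show n + 3 - 1 = n + 2 by omega,
      show n + 3 - 0 = n + 3 by omega] at h
    linarith
  have h3 : ((n : ℝ) + 1) * ((n + 2) * (n + 3)) = 6 * ((n + 3).choose 3 : ℕ) := by exact_mod_cast h2
  linarith

lemma choose_four (n : ℕ) :
    (((n + 4).choose 4 : ℕ) : ℝ) = (n + 4) * (n + 3) * (n + 2) * (n + 1) / 24 := by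
  have h := Nat.descFactorial_eq_factorial_mul_choose (n + 4) 4
  simp only [Nat.descFactorial, Nat.factorial] at h
  have h2 : ((n + 1) * ((n + 2) * ((n + 3) * (n + 4))) : ℕ) = 24 * (n + 4).choose 4 := by
    rw [show n + 4 - 3 = n + 1 by omega, show n + 4 - 2 = n + 2 by omega,
      show n + 4 - 1 = n + 3 by omega, show n + 4 - 0 = n + 4 by omega] at h
    linarith
  have h3 : ((n : ℝ) + 1) * ((n + 2) * ((n + 3) * (n + 4))) = 24 * ((n + 4).choose 4 : ℕ) := by
    exact_mod_cast h2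
  linarith

lemma choose_two' (n : ℕ) : (((n + 2).choose 2 : ℕ) : ℝ) = (n + 2) * (n + 1) / 2 := by
  rw [Nat.cast_choose_two]
  push_cast
  ring

/-- two successes -/
lemma bin_two {l : ℕ} (hl : 5 ≤ l) {x y : ℝ} (hx : 0 < x) (hy : 0 < y) :
    303 / 100 * ((l + 2).choose 2 : ℝ) * x ^ 2 * y ^ l < (x + y) ^ (l + 2) := by
  obtain ⟨r, rfl⟩ : ∃ r, l = r + 2 := ⟨l - 2, by omega⟩
  have h1 : ∑ n ∈ range 5, x ^ n * y ^ (r + 4 - n) * ((r + 4).choose n : ℝ) ≤
      (x + y) ^ (r + 4) := by
    rw [add_pow]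
    apply Finset.sum_le_sum_of_subset_of_nonneg
    · intro n hn
      rw [mem_range] at hn ⊢
      omega
    · intro n _ _
      positivity
  rw [show r + 2 + 2 = r + 4 by ring]
  refine lt_of_lt_of_le ?_ h1
  simp only [Finset.sum_range_succ, Finset.sum_range_zero, zero_add, pow_zero, one_mul, pow_one,
    Nat.choose_zero_right, Nat.choose_one_right, Nat.sub_zero, Nat.cast_one, mul_one]
  rw [show r + 4 - 1 = r + 3 by omega, show r + 4 - 2 = r + 2 by omega,
    show r + 4 - 3 = r + 1 by omega, show r + 4 - 4 = r by omega]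
  have c2 : (((r + 4).choose 2 : ℕ) : ℝ) = (r + 4) * (r + 3) / 2 := by
    have := choose_two' (r + 2)
    push_cast at this
    rw [show r + 2 + 2 = r + 4 by ring] at this
    rw [this]
    ring
  have c3 : (((r + 4).choose 3 : ℕ) : ℝ) = (r + 4) * (r + 3) * (r + 2) / 6 := by
    have := choose_three (r + 1)
    push_cast at this
    rw [show r + 1 + 3 = r + 4 by ring] at this
    rw [this]
    ring
  have c4 := choose_four r
  rw [c2, c3, c4]
  have hr : (7 : ℝ) ≤ (r : ℝ) + 4 := by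
    have : (3 : ℝ) ≤ r := by exact_mod_cast (by omega : 3 ≤ r)
    linarith
  have hq := quartic hr hx hy
  have hY : 0 < y ^ r := by positivity
  have h3 := mul_pos hq hY
  have e : y ^ (r + 4) + x * y ^ (r + 3) * ((r + 4 : ℕ) : ℝ) + x ^ 2 * y ^ (r + 2) *
      ((r + 4) * (r + 3) / 2) + x ^ 3 * y ^ (r + 1) * ((r + 4) * (r + 3) * (r + 2) / 6) +
      x ^ 4 * y ^ r * ((r + 4) * (r + 3) * (r + 2) * (r + 1) / 24) -
      303 / 100 * ((r + 4) * (r + 3) / 2) * x ^ 2 * y ^ (r + 2) =
      (y ^ 4 + ((r : ℝ) + 4) * x * y ^ 3 - 203 / 200 * ((r + 4) * (r + 4 - 1)) * (x ^ 2 * y ^ 2) +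
      (r + 4) * (r + 4 - 1) * (r + 4 - 2) / 6 * (x ^ 3 * y) +
      (r + 4) * (r + 4 - 1) * (r + 4 - 2) * (r + 4 - 3) / 24 * x ^ 4) * y ^ r := by
    push_cast
    ring
  rw [← e] at h3
  linarith

/-- **Binomial probabilities.** At least two successes and at least two failures in at least six
trials: every such probability is less than `100/303`. -/
lemma bin_lt : ∀ (n i l : ℕ), i + l = n → 6 ≤ n → 2 ≤ i → 2 ≤ l → ∀ x y : ℝ, 0 < x → 0 < y →
    303 / 100 * (n.choose i : ℝ) * x ^ i * y ^ l < (x + y) ^ n := by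
  intro n
  induction n with
  | zero => intro i l _ h; omega
  | succ n ih =>
    intro i l hil hn hi hl x y hx hy
    rcases Nat.eq_or_lt_of_le hn with h6 | h7
    · have hn5 : n = 5 := by omega
      subst hn5
      have : i = 2 ∨ i = 3 ∨ i = 4 := by omega
      rcases this with rfl | rfl | rfl
      · have : l = 4 := by omega
        subst this
        have hc : (5 + 1).choose 2 = 15 := by decide
        rw [hc]
        have := bin_base_two hx hy
        norm_num
        linarith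
      · have : l = 3 := by omega
        subst this
        have hc : (5 + 1).choose 3 = 20 := by decide
        rw [hc]
        have := bin_base_three hx hy
        norm_num
        linarith
      · have : l = 2 := by omega
        subst this
        have hc : (5 + 1).choose 4 = 15 := by decide
        rw [hc]
        have := bin_base_two hy hx
        rw [add_comm y x] at this
        norm_num
        linarith
    · rcases Nat.eq_or_lt_of_le hi with h2 | h3
      · subst h2
        have hl5 : 5 ≤ l := by omega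
        have := bin_two hl5 hx hy
        rw [show n + 1 = l + 2 by omega]
        exact this
      · rcases Nat.eq_or_lt_of_le hl with h2' | h3'
        · subst h2'
          have hi5 : 5 ≤ i := by omega
          have := bin_two hi5 hy hx
          rw [show n + 1 = i + 2 by omega, Nat.choose_symm_add, add_comm x y]
          linarith
        · obtain ⟨i', rfl⟩ : ∃ i', i = i' + 1 := ⟨i - 1, by omega⟩
          obtain ⟨l', rfl⟩ : ∃ l', l = l' + 1 := ⟨l - 1, by omega⟩
          have a1 := ih i' (l' + 1) (by omega) (by omega) (by omega) (by omega) x y hx hy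
          have a2 := ih (i' + 1) l' (by omega) (by omega) (by omega) (by omega) x y hx hy
          have b1 := mul_lt_mul_of_pos_left a1 hx
          have b2 := mul_lt_mul_of_pos_left a2 hy
          have e : (x + y) ^ (n + 1) = x * (x + y) ^ n + y * (x + y) ^ n := by ring
          rw [e, Nat.choose_succ_succ]
          push_cast
          have e2 : 303 / 100 * ((n.choose i' : ℝ) + n.choose (i' + 1)) * x ^ (i' + 1) *
              y ^ (l' + 1) =
              x * (303 / 100 * (n.choose i' : ℝ) * x ^ i' * y ^ (l' + 1)) +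
              y * (303 / 100 * (n.choose (i' + 1) : ℝ) * x ^ (i' + 1) * y ^ l') := by ring
          rw [e2]
          linarith

end Pool.Agent.H175.IE
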