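import Mathlib

/-!
# Binomial probabilities are at most `β / √a`
-/

set_option autoImplicit false

open Finset Real

namespace Pool.Agent.H175.IE

/-- weighted inequality of the arithmetic and geometric mean, with natural exponents -/
lemma amgm {i l : ℕ} (hi : 1 ≤ i) (hl : 1 ≤ l) {x y : ℝ} (hx : 0 < x) (hy : 0 < y) :
    ((i : ℝ) + l) ^ (i + l) * (x ^ i * y ^ l) ≤ (i : ℝ) ^ i * (l : ℝ) ^ l * (x + y) ^ (i + l) := by
  have hi0 : (0 : ℝ) < i := by exact_mod_cast hi
  have hl0 : (0 : ℝ) < l := by exact_mod_cast hl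
  have hn : (0 : ℝ) < (i : ℝ) + l := by positivity
  have h := Real.geom_mean_le_arith_mean2_weighted (w₁ := i / ((i : ℝ) + l))
    (w₂ := l / ((i : ℝ) + l)) (p₁ := x * (i + l) / i) (p₂ := y * (i + l) / l)
    (by positivity) (by positivity) (by positivity) (by positivity)
    (by rw [← add_div, div_self hn.ne'])
  have e1 : (i : ℝ) / (i + l) * (x * (i + l) / i) + l / (i + l) * (y * (i + l) / l) = x + y := by
    field_simp
  rw [e1] at h
  have h2 := pow_le_pow_left₀ (by positivity) h (i + l)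
  have e2 : ∀ (p : ℝ) (j : ℕ), 0 < p → (p ^ ((j : ℝ) / (i + l))) ^ (i + l) = p ^ j := by
    intro p j hp
    rw [← Real.rpow_natCast, ← Real.rpow_mul hp.le]
    have : (j : ℝ) / (i + l) * ((i + l : ℕ) : ℝ) = j := by
      push_cast
      field_simp
    rw [this, Real.rpow_natCast]
  rw [mul_pow, e2 _ i (by positivity), e2 _ l (by positivity)] at h2
  have h3 : (x * (i + l) / i) ^ i * (y * (i + l) / l) ^ l =
      ((i : ℝ) + l) ^ (i + l) * (x ^ i * y ^ l) / ((i : ℝ) ^ i * (l : ℝ) ^ l) := by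
    rw [div_pow, div_pow, mul_pow, mul_pow, pow_add]
    field_simp
  rw [h3, div_le_iff₀ (by positivity)] at h2
  linarith

/-- upper bound of the factorial -/
lemma fact_le {n : ℕ} (hn : 1 ≤ n) :
    (n.factorial : ℝ) ≤ exp 1 * √n * (n / exp 1) ^ n := by
  obtain ⟨m, rfl⟩ : ∃ m, n = m + 1 := ⟨n - 1, by omega⟩
  have h1 : Stirling.stirlingSeq (m + 1) ≤ Stirling.stirlingSeq 1 := by
    have := Stirling.stirlingSeq'_antitone (Nat.zero_le m)
    simpa using this
  rw [Stirling.stirlingSeq_one] at h1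
  unfold Stirling.stirlingSeq at h1
  have hpos : (0 : ℝ) < √(2 * ((m + 1 : ℕ) : ℝ)) * (((m + 1 : ℕ) : ℝ) / exp 1) ^ (m + 1) := by
    positivity
  rw [div_le_iff₀ hpos] at h1
  refine h1.trans (le_of_eq ?_)
  rw [Real.sqrt_mul (by norm_num)]
  have h2 : (0 : ℝ) < √2 := by positivity
  field_simp

lemma fact_ge (n : ℕ) : √(2 * π * n) * (n / exp 1) ^ n ≤ (n.factorial : ℝ) :=
  Stirling.le_factorial_stirling n

/-- the largest value of a binomial probability -/
lemma choose_le {i l : ℕ} (hi : 1 ≤ i) (hl : 1 ≤ l) :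
    ((i + l).choose i : ℝ) * ((i : ℝ) ^ i * (l : ℝ) ^ l) * (2 * π * √(i * l)) ≤
      exp 1 * √((i : ℝ) + l) * ((i : ℝ) + l) ^ (i + l) := by
  have hi0 : (0 : ℝ) < i := by exact_mod_cast hi
  have hl0 : (0 : ℝ) < l := by exact_mod_cast hl
  have hn : (0 : ℝ) < (i : ℝ) + l := by positivity
  have h1 := fact_ge i
  have h2 := fact_ge l
  have h3 := fact_le (n := i + l) (by omega)
  have h4 : ((i + l).choose i : ℝ) * (i.factorial : ℝ) * (l.factorial : ℝ) =
      ((i + l).factorial : ℝ) := by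
    have := Nat.add_choose_mul_factorial_mul_factorial i l
    rw [← Nat.choose_symm_add] at this
    exact_mod_cast this
  have h5 : ((i + l).choose i : ℝ) * (√(2 * π * i) * (i / exp 1) ^ i) *
      (√(2 * π * l) * (l / exp 1) ^ l) ≤ ((i + l).factorial : ℝ) := by
    rw [← h4]
    gcongr
  have h6 := h5.trans h3
  have h7 : √(2 * π * i) * √(2 * π * l) = 2 * π * √(i * l) := by
    rw [← Real.sqrt_mul (by positivity)]
    rw [show 2 * π * (i : ℝ) * (2 * π * l) = (2 * π) ^ 2 * (i * l) by ring]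
    rw [Real.sqrt_mul (by positivity), Real.sqrt_sq (by positivity)]
  have h8 : ((i + l).choose i : ℝ) * (√(2 * π * i) * (i / exp 1) ^ i) *
      (√(2 * π * l) * (l / exp 1) ^ l) =
      ((i + l).choose i : ℝ) * ((i : ℝ) ^ i * (l : ℝ) ^ l) * (2 * π * √(i * l)) /
        exp 1 ^ (i + l) := by
    rw [← h7, div_pow, div_pow, pow_add]
    field_simp
  rw [h8, div_le_iff₀ (by positivity)] at h6
  refine h6.trans (le_of_eq ?_)
  push_cast
  rw [div_pow]
  field_simp

/-- every binomial probability with `i` successes and `l` failures is at most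
`(e / (2 π)) √((i + l) / (i l))` -/
lemma bin_rate {i l : ℕ} (hi : 1 ≤ i) (hl : 1 ≤ l) {x y : ℝ} (hx : 0 < x) (hy : 0 < y) :
    ((i + l).choose i : ℝ) * (x ^ i * y ^ l) * (2 * π * √(i * l)) ≤
      exp 1 * √((i : ℝ) + l) * (x + y) ^ (i + l) := by
  have hi0 : (0 : ℝ) < i := by exact_mod_cast hi
  have hl0 : (0 : ℝ) < l := by exact_mod_cast hl
  have hn : (0 : ℝ) < (i : ℝ) + l := by positivity
  have h1 := amgm hi hl hx hy
  have h2 := choose_le hi hl
  have hN : (0 : ℝ) < ((i : ℝ) + l) ^ (i + l) := by positivity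
  have hQ : (0 : ℝ) < (i : ℝ) ^ i * (l : ℝ) ^ l := by positivity
  have h3 : (((i + l).choose i : ℝ) * (x ^ i * y ^ l) * (2 * π * √(i * l))) *
      (((i : ℝ) + l) ^ (i + l)) ≤
      (exp 1 * √((i : ℝ) + l) * (x + y) ^ (i + l)) * (((i : ℝ) + l) ^ (i + l)) := by
    calc (((i + l).choose i : ℝ) * (x ^ i * y ^ l) * (2 * π * √(i * l))) *
          (((i : ℝ) + l) ^ (i + l))
        = ((i + l).choose i : ℝ) * (2 * π * √(i * l)) *
          (((i : ℝ) + l) ^ (i + l) * (x ^ i * y ^ l)) := by ring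
      _ ≤ ((i + l).choose i : ℝ) * (2 * π * √(i * l)) *
          ((i : ℝ) ^ i * (l : ℝ) ^ l * (x + y) ^ (i + l)) := by gcongr
      _ = (((i + l).choose i : ℝ) * ((i : ℝ) ^ i * (l : ℝ) ^ l) * (2 * π * √(i * l))) *
          (x + y) ^ (i + l) := by ring
      _ ≤ (exp 1 * √((i : ℝ) + l) * ((i : ℝ) + l) ^ (i + l)) * (x + y) ^ (i + l) := by gcongr
      _ = _ := by ring
  exact le_of_mul_le_mul_right h3 hN

end Pool.Agent.H175.IE
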